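import Mathlib
import Pool.Agent.R500.WB.Prob

set_option autoImplicit false

/-!
# Sparse sets of moved powers: the block
-/

namespace Pool.Agent.R500.WC

open Finset Function MeasureTheory ProbabilityTheory
open Pool.Agent.R500.WA Pool.Agent.R500.WB
open scoped Classical

/-- In every class modulo `q` the set `U` has an element in every window of length `C`. -/
def Win (q C : ℕ) (U : Set ℕ) : Prop :=
  ∀ c x, C ≤ x → ∃ y, y ≤ x ∧ x < y + C ∧ y ≡ c [MOD q] ∧ y ∈ U

/-- One greedy step inside `U`. -/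
lemma stepU {q k C : ℕ} {U : Set ℕ} (hk : 1 ≤ k) (hC : 1 ≤ C) (hU : Win q C U) (c : ℕ) {r : ℕ}
    (hr : (2 * C) ^ k ≤ r) :
    ∃ y : ℕ, C ≤ y ∧ y ≡ c [MOD q] ∧ y ∈ U ∧ y ^ k ≤ r ∧ r < (y + C) ^ k := by
  obtain ⟨x, hx1, -, hx3, hx4⟩ := greedy_step (r := r) hk (show 0 < 1 by norm_num)
    (le_trans (Nat.pow_le_pow_left (by omega) k) hr)
  have hx : 2 * C ≤ x := by
    have h1 : (2 * C) ^ k < (x + 1) ^ k := hr.trans_lt hx4
    have := lt_of_pow_lt_pow_left₀ k (Nat.zero_le _) h1
    omega
  obtain ⟨y, h1, h2, h3, h4⟩ := hU c x (by omega)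
  refine ⟨y, by omega, h3, h4, (Nat.pow_le_pow_left h1 k).trans hx3, hx4.trans_le ?_⟩
  exact Nat.pow_le_pow_left (by omega) k

/-- The greedy algorithm inside `U` with prescribed residues modulo `q`. -/
lemma greedyU {q k C : ℕ} {U : Set ℕ} (hk : 1 ≤ k) (hC : 1 ≤ C) (hU : Win q C U) :
    ∀ (rs : List ℕ) (r : ℕ), ∃ (ys : List ℕ) (R : ℕ),
      ys.length = rs.length ∧ (∀ y ∈ ys, 1 ≤ y ∧ y ∈ U) ∧
      (ys.map (fun y => y ^ k)).sum ≡ (rs.map (fun y => y ^ k)).sum [MOD q] ∧
      (ys.map (fun y => y ^ k)).sum + R = r + rs.length * (2 * C) ^ k ∧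
      (R : ℝ) ≤ (2 * rs.length + 1) * (2 * (C : ℝ)) ^ k +
        A k C ^ rs.length * (r : ℝ) ^ (θ k ^ rs.length) := by
  have hA := one_le_A hk hC
  have hCR : (0 : ℝ) ≤ (2 * (C : ℝ)) ^ k := by positivity
  intro rs
  induction rs with
  | nil =>
    intro r
    refine ⟨[], r, by simp, by simp, by simp [Nat.ModEq], by simp, ?_⟩
    simp only [List.length_nil, pow_zero, one_mul, Real.rpow_one, Nat.cast_zero, mul_zero, zero_add]
    linarith
  | cons c rs ih =>
    intro r
    obtain ⟨J, hJ⟩ : ∃ J, J = rs.length := ⟨_, rfl⟩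
    rw [← hJ] at ih
    have hθ0 : 0 ≤ θ k ^ J := pow_nonneg (θ_nonneg hk) _
    have hθ1 : θ k ^ J ≤ 1 := pow_le_one₀ (θ_nonneg hk) (θ_lt hk).le
    rw [List.length_cons, ← hJ]
    by_cases hr : (2 * C) ^ k ≤ r
    · obtain ⟨y, hy1, hyc, hyU, hy3, hy4⟩ := stepU hk hC hU c hr
      have hsb := step_bound hk hy1 hy3 hy4
      obtain ⟨ys, R, h1, h2, h3, h4, h5⟩ := ih (r - y ^ k)
      refine ⟨y :: ys, R + (2 * C) ^ k, by simpa using h1, ?_, ?_, ?_, ?_⟩
      · intro z hz
        rcases List.mem_cons.1 hz with rfl | hz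
        · exact ⟨hC.trans hy1, hyU⟩
        · exact h2 z hz
      · rw [List.map_cons, List.sum_cons, List.map_cons, List.sum_cons]
        exact (hyc.pow k).add h3
      · rw [List.map_cons, List.sum_cons, add_mul, one_mul]
        omega
      · have e1 : ((r - y ^ k : ℕ) : ℝ) ^ (θ k ^ J) ≤ A k C * (r : ℝ) ^ (θ k ^ (J + 1)) := by
          calc ((r - y ^ k : ℕ) : ℝ) ^ (θ k ^ J) ≤ (A k C * (r : ℝ) ^ θ k) ^ (θ k ^ J) :=
                Real.rpow_le_rpow (Nat.cast_nonneg _) hsb hθ0
            _ = A k C ^ (θ k ^ J) * ((r : ℝ) ^ θ k) ^ (θ k ^ J) :=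
                Real.mul_rpow (by linarith) (by positivity)
            _ = A k C ^ (θ k ^ J) * (r : ℝ) ^ (θ k ^ (J + 1)) := by
                rw [← Real.rpow_mul (Nat.cast_nonneg _), pow_succ']
            _ ≤ A k C * (r : ℝ) ^ (θ k ^ (J + 1)) := by
                refine mul_le_mul_of_nonneg_right ?_ (by positivity)
                calc A k C ^ (θ k ^ J) ≤ A k C ^ (1 : ℝ) :=
                      Real.rpow_le_rpow_of_exponent_le hA hθ1
                  _ = _ := Real.rpow_one _
        have e2 : (0 : ℝ) ≤ A k C ^ J := by positivity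
        have e3 := mul_le_mul_of_nonneg_left e1 e2
        have e4 : A k C ^ J * (A k C * (r : ℝ) ^ (θ k ^ (J + 1))) =
            A k C ^ (J + 1) * (r : ℝ) ^ (θ k ^ (J + 1)) := by
          rw [pow_succ (A k C) J, mul_assoc]
        rw [e4] at e3
        push_cast
        linarith only [e3, h5, hCR]
    · push Not at hr
      obtain ⟨ys, R, h1, h2, h3, h4, h5⟩ := ih 0
      obtain ⟨y, hy1, hy2, hyc, hyU⟩ := hU c (2 * C) (by omega)
      have hyk : y ^ k ≤ (2 * C) ^ k := Nat.pow_le_pow_left hy1 k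
      refine ⟨y :: ys, R + r + ((2 * C) ^ k - y ^ k), by simpa using h1, ?_, ?_, ?_, ?_⟩
      · intro z hz
        rcases List.mem_cons.1 hz with rfl | hz
        · exact ⟨by omega, hyU⟩
        · exact h2 z hz
      · rw [List.map_cons, List.sum_cons, List.map_cons, List.sum_cons]
        exact (hyc.pow k).add h3
      · rw [List.map_cons, List.sum_cons, add_mul, one_mul]
        omega
      · have e1 : (r : ℝ) ≤ (2 * (C : ℝ)) ^ k := by exact_mod_cast hr.le
        have e2 : (((2 * C) ^ k - y ^ k : ℕ) : ℝ) ≤ (2 * (C : ℝ)) ^ k := by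
          have := Nat.sub_le ((2 * C) ^ k) (y ^ k)
          exact_mod_cast this
        have e3 : A k C ^ J * ((0 : ℕ) : ℝ) ^ (θ k ^ J) ≤
            A k C ^ (J + 1) * (r : ℝ) ^ (θ k ^ (J + 1)) := by
          by_cases hz : θ k ^ J = 0
          · have hz' : θ k ^ (J + 1) = 0 := by rw [pow_succ, hz, zero_mul]
            rw [hz, hz', Real.rpow_zero, Real.rpow_zero, mul_one, mul_one]
            exact pow_le_pow_right₀ hA (Nat.le_succ _)
          · rw [Nat.cast_zero, Real.zero_rpow hz, mul_zero]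
            positivity
        push_cast
        push_cast at h5 e3 e2
        linarith only [e1, e2, e3, h5]

/-- `n` is a sum of `t` terms, moved ones from `D` and unmoved ones from `U`. -/
def SuccC (q k t n : ℕ) (D : Finset ℕ) (U : Set ℕ) (v : ↥D → ℕ) : Prop :=
  ∃ l : List ℕ, l.length = t ∧ (∀ y ∈ l, 1 ≤ y) ∧ (∀ y ∈ l, y ∈ D ∨ y ∈ U) ∧ ffq q k l v = n

/-- **The second moment bound for a block.** -/
theorem blockC {q k F J n m L w : ℕ} {h : ℕ → ℕ} {D : Finset ℕ} {U : Set ℕ} (hq : 1 ≤ q)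
    (hD : ∀ x ∈ D, x ∉ U) (hwD : w ∈ D) (hw1 : 1 ≤ w) {z : Fin F → Fin m → ℕ}
    (hzD : ∀ i t, z i t ∈ D) (hz1 : ∀ i t, 1 ≤ z i t) (hzw : ∀ i t, z i t ≠ w)
    (hzinj : ∀ i t i' t', z i t = z i' t' → i = i' ∧ t = t')
    (hL : ∀ x : Fin F → Fin m, ∑ i, h (z i (x i)) ≤ L)
    {ys : (Fin F → Fin m) → List ℕ} (hys : ∀ x, (ys x).length = J)
    (hysU : ∀ x, ∀ y ∈ ys x, 1 ≤ y ∧ y ∈ U) {R : (Fin F → Fin m) → ℕ}
    (heq : ∀ x : Fin F → Fin m, w ^ k + ∑ i, (z i (x i)) ^ k +
      ((ys x).map (fun y => y ^ k)).sum + q * (L + R x) = n)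
    (hR : ∀ x, L + R x < h w) {N Hmax Hmin : ℕ} (hN : N ≤ m ^ F) (hmax : h w ≤ Hmax)
    (hmin : ∀ i t, Hmin ≤ h (z i t)) (hmin0 : 0 < Hmin) {δ : ℝ} (hδ1 : δ ≤ 1)
    {ν : ↥D → ℕ → ℝ} (H : Law (fun i : ↥D => h i) ν δ) :
    N * (δ ^ (F + 1) / Hmax) - N * N * (δ / Hmin * (δ / Hmin)) ≤
      Ex (fun i : ↥D => h i) ν (fun v => if SuccC q k (F + 1 + J) n D U v then 1 else 0) := by
  have hδ := H.δpos
  set zl : (Fin F → Fin m) → List ℕ := fun x => List.ofFn (fun i : Fin F => z i (x i)) with hzl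
  set ll : (Fin F → Fin m) → List ℕ := fun x => w :: (zl x ++ ys x) with hll
  have hwy : ∀ x, w ∉ ys x := fun x hcon => hD w hwD (hysU x w hcon).2
  have hwz : ∀ x, w ∉ zl x := by
    intro x hcon
    rw [hzl, List.mem_ofFn] at hcon
    obtain ⟨i, hi⟩ := hcon
    exact hzw i (x i) hi
  have hzy : ∀ x i t, z i t ∉ ys x := fun x i t hcon => hD _ (hzD i t) (hysU x _ hcon).2
  have hcw : ∀ x, (ll x).count w = 1 := by
    intro x
    rw [hll]
    simp only
    rw [List.count_cons_self, List.count_append, List.count_eq_zero_of_not_mem (hwz x),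
      List.count_eq_zero_of_not_mem (hwy x)]
  have hcz : ∀ (x : Fin F → Fin m) (i : Fin F), (ll x).count (z i (x i)) = 1 := by
    intro x i
    rw [hll]
    simp only
    rw [List.count_cons_of_ne (Ne.symm (hzw i (x i))), List.count_append,
      List.count_eq_zero_of_not_mem (hzy x i (x i)), add_zero]
    refine List.count_eq_one_of_mem ?_ ?_
    · rw [hzl, List.nodup_ofFn]
      intro i j hij
      exact (hzinj _ _ _ _ hij).1
    · rw [hzl, List.mem_ofFn]
      exact ⟨i, rfl⟩
  have hcz' : ∀ (x x' : Fin F → Fin m) (i : Fin F), x i ≠ x' i →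
      (ll x').count (z i (x i)) = 0 := by
    intro x x' i hne
    rw [hll]
    simp only
    rw [List.count_cons_of_ne (Ne.symm (hzw i (x i))), List.count_append,
      List.count_eq_zero_of_not_mem (hzy x' i (x i)), add_zero]
    refine List.count_eq_zero_of_not_mem ?_
    rw [hzl, List.mem_ofFn]
    rintro ⟨j, hj⟩
    obtain ⟨e1, e2⟩ := hzinj _ _ _ _ hj
    subst e1
    exact hne e2.symm
  set P : (Fin F → Fin m) → (↥D → ℕ) → Prop := fun x v => ffq q k (ll x) v = n with hP
  set S : (Fin F → Fin m) → Finset ↥D := fun x =>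
    insert ⟨w, hwD⟩ (univ.image (fun i : Fin F => (⟨z i (x i), hzD i (x i)⟩ : ↥D))) with hS
  obtain ⟨I, hI, hIc⟩ := Finset.exists_subset_card_eq (s := (univ : Finset (Fin F → Fin m)))
    (n := N) (by simpa using hN)
  have hSucc : ∀ x ∈ I, ∀ v, P x v → SuccC q k (F + 1 + J) n D U v := by
    intro x _ v hv
    refine ⟨ll x, ?_, ?_, ?_, hv⟩
    · rw [hll, hzl]
      simp only [List.length_cons, List.length_append, List.length_ofFn, hys x]
      ring
    · intro y hy
      rcases List.mem_cons.1 hy with rfl | hy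
      · exact hw1
      · rcases List.mem_append.1 hy with hy | hy
        · rw [hzl, List.mem_ofFn] at hy
          obtain ⟨i, rfl⟩ := hy
          exact hz1 _ _
        · exact (hysU x y hy).1
    · intro y hy
      rcases List.mem_cons.1 hy with rfl | hy
      · exact Or.inl hwD
      · rcases List.mem_append.1 hy with hy | hy
        · rw [hzl, List.mem_ofFn] at hy
          obtain ⟨i, rfl⟩ := hy
          exact Or.inl (hzD _ _)
        · exact Or.inr (hysU x y hy).2
  have hmain := H.union I S P (SuccC q k (F + 1 + J) n D U) hSucc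
    (α := δ ^ (F + 1) / Hmax) (β := δ / Hmin * (δ / Hmin)) ?_ ?_ (by positivity)
  · rw [hIc] at hmain
    exact hmain
  · -- lower bound
    intro x _
    have hlow := H.lower (S x) (P x) (w := ⟨w, hwD⟩) (Finset.mem_insert_self _ _) ?_
    · refine le_trans ?_ hlow
      have hcard : #(S x) ≤ F + 1 := by
        rw [hS]
        refine (Finset.card_insert_le _ _).trans ?_
        have := Finset.card_image_le (s := (univ : Finset (Fin F)))
          (f := fun i : Fin F => (⟨z i (x i), hzD i (x i)⟩ : ↥D))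
        rw [Finset.card_univ, Fintype.card_fin] at this
        omega
      have e1 : δ ^ (F + 1) ≤ δ ^ #(S x) := pow_le_pow_of_le_one hδ.le hδ1 hcard
      have e2 : (h w : ℝ) ≤ Hmax := by exact_mod_cast hmax
      have e3 : (0 : ℝ) < h w := by exact_mod_cast H.pos ⟨w, hwD⟩
      exact div_le_div₀ (by positivity) e1 e3 e2
    · intro v hv
      rw [mem_Box] at hv
      have hnoise : ((zl x ++ ys x).map (fun y => vv v y)).sum ≤ L := by
        rw [List.map_append, List.sum_append]
        have e1 : ((ys x).map (fun y => vv v y)).sum = 0 := by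
          refine List.sum_eq_zero ?_
          intro y hy
          rw [List.mem_map] at hy
          obtain ⟨u, hu, rfl⟩ := hy
          unfold vv
          rw [dif_neg (fun hcon => hD u hcon (hysU x u hu).2)]
        rw [e1, add_zero]
        refine le_trans ?_ (hL x)
        rw [hzl]
        simp only
        rw [List.map_ofFn, List.sum_ofFn]
        refine Finset.sum_le_sum fun i _ => ?_
        simp only [Function.comp_apply]
        unfold vv
        rw [dif_pos (hzD i (x i))]
        exact (hv ⟨z i (x i), hzD i (x i)⟩).le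
      have hzsum : ((zl x).map (fun y => y ^ k)).sum = ∑ i : Fin F, (z i (x i)) ^ k := by
        rw [hzl]
        simp only
        rw [List.map_ofFn, List.sum_ofFn]
        rfl
      have hfv : ffq q k (ll x) v = w ^ k + q * vv v w + ((∑ i : Fin F,
          (z i (x i)) ^ k) + ((ys x).map (fun y => y ^ k)).sum +
          q * ((zl x ++ ys x).map (fun y => vv v y)).sum) := by
        have : ffq q k (ll x) v = w ^ k + q * vv v w + ffq q k (zl x ++ ys x) v := by
          rw [hll]; simp [ffq]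
        rw [this, ffq_eq, List.map_append, List.sum_append, hzsum]
      have hvx : vv v w = v ⟨w, hwD⟩ := by unfold vv; rw [dif_pos hwD]
      obtain ⟨Q, hQ⟩ : ∃ Q, Q = ((zl x ++ ys x).map (fun y => vv v y)).sum := ⟨_, rfl⟩
      rw [← hQ] at hnoise hfv
      refine ⟨L + R x - Q, ?_, ?_⟩
      · have h1 := hR x
        simp only
        omega
      · have hup := ffq_upd q k (ll x) v hwD (L + R x - Q)
        rw [hcw x, one_mul, one_mul, hfv, hvx] at hup
        have h6 := heq x
        have h7 : q * (L + R x - Q) + q * Q = q * (L + R x) := by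
          rw [← mul_add, Nat.sub_add_cancel (by omega)]
        rw [hP]
        simp only
        omega
  · -- upper bound
    intro x _ x' _ hne
    obtain ⟨i, hi⟩ := Function.ne_iff.1 hne
    have hzz : (⟨z i (x i), hzD i (x i)⟩ : ↥D) ≠ ⟨z i (x' i), hzD i (x' i)⟩ := by
      intro hcon
      exact hi (hzinj _ _ _ _ (congrArg Subtype.val hcon)).2
    have q1 : ∀ (v : ↥D → ℕ) (j : ℕ),
        ffq q k (ll x') (update v ⟨z i (x i), hzD i (x i)⟩ j) = ffq q k (ll x') v := by
      intro v j
      have h1 := ffq_upd q k (ll x') v (hzD i (x i)) j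
      rw [hcz' x x' i hi, Nat.zero_mul, Nat.zero_mul] at h1
      omega
    have q2 : ∀ (y : Fin F → Fin m) (v : ↥D → ℕ) (j j' : ℕ),
        ffq q k (ll y) (update v ⟨z i (y i), hzD i (y i)⟩ j) = n →
        ffq q k (ll y) (update v ⟨z i (y i), hzD i (y i)⟩ j') = n → j = j' := by
      intro y v j j' h1 h2
      have h3 := ffq_upd q k (ll y) v (hzD i (y i)) j
      have h4 := ffq_upd q k (ll y) v (hzD i (y i)) j'
      rw [hcz y i, Nat.one_mul, Nat.one_mul, h1] at h3
      rw [hcz y i, Nat.one_mul, Nat.one_mul, h2] at h4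
      have h5 : q * j = q * j' := by omega
      exact Nat.eq_of_mul_eq_mul_left hq h5
    have hup := H.upper (S x) (S x') (P x) (P x')
      (z := ⟨z i (x i), hzD i (x i)⟩) (z' := ⟨z i (x' i), hzD i (x' i)⟩)
      (Finset.mem_insert_of_mem (Finset.mem_image.2 ⟨i, Finset.mem_univ _, rfl⟩))
      (Finset.mem_insert_of_mem (Finset.mem_image.2 ⟨i, Finset.mem_univ _, rfl⟩)) hzz
      (fun v j => by
        show ffq q k (ll x') (update v ⟨z i (x i), hzD i (x i)⟩ j) = n ↔
          ffq q k (ll x') v = n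
        rw [q1 v j])
      (fun v j j' h1 h2 => q2 x v j j' h1 h2) (fun v j j' h1 h2 => q2 x' v j j' h1 h2)
    refine hup.trans ?_
    have e1 : ∀ t, δ / (h (z i t) : ℝ) ≤ δ / Hmin := by
      intro t
      refine div_le_div_of_nonneg_left hδ.le (by exact_mod_cast hmin0) ?_
      exact_mod_cast hmin i t
    refine mul_le_mul (e1 _) (e1 _) ?_ ?_
    · positivity
    · positivity

variable {Ω : Type*} [MeasurableSpace Ω] {μ : Measure Ω} [IsProbabilityMeasure μ]
  {ξ : ℕ → Ω → ℕ} {h : ℕ → ℕ} {δ : ℝ}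

/-- **Independence of the blocks.** -/
theorem failC (H : Noise μ ξ h δ) {B : ℕ} {p : ℝ} (hp1 : p ≤ 1) (D : ℕ → Finset ℕ)
    (hdisj : ∀ b < B, ∀ c < B, b ≠ c → Disjoint (D b) (D c))
    (s : ∀ b, (↥(D b) → ℕ) → Prop)
    (hp : ∀ b < B, p ≤ Ex (fun i : ↥(D b) => h i) (nu μ ξ (D b))
      (fun v => if s b v then 1 else 0)) :
    μ.real {ω | ∀ b < B, ¬ s b (fun i => ξ i ω)} ≤ (1 - p) ^ B := by
  have key : ∀ c ≤ B, μ.real {ω | ∀ b < c, ¬ s b (fun i => ξ i ω)} ≤ (1 - p) ^ c := by
    intro c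
    induction c with
    | zero =>
      intro _
      simp
    | succ c ih =>
      intro hc
      have ih' := ih (by omega)
      set U : Finset ℕ := (range c).biUnion D with hU
      have hsub : ∀ b < c, ∀ i ∈ D b, i ∈ U := by
        intro b hb i hi
        rw [hU, Finset.mem_biUnion]
        exact ⟨b, Finset.mem_range.2 hb, hi⟩
      have hdis : Disjoint U (D c) := by
        rw [hU, Finset.disjoint_biUnion_left]
        intro b hb
        rw [Finset.mem_range] at hb
        exact hdisj b (by omega) c (by omega) (by omega)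
      have hind := H.indep.indepFun_finset U (D c) hdis H.meas
      set G : Set (↥U → ℕ) := {v | ∀ b (hb : b < c),
        ¬ s b (fun i => v ⟨i.1, hsub b hb i.1 i.2⟩)} with hG
      set G' : Set (↥(D c) → ℕ) := {v | ¬ s c v} with hG'
      have hmul := hind.measure_inter_preimage_eq_mul G G' (Set.to_countable _).measurableSet
        (Set.to_countable _).measurableSet
      have e1 : {ω | ∀ b < c + 1, ¬ s b (fun i => ξ i ω)} =
          (fun ω (i : ↥U) => ξ i ω) ⁻¹' G ∩ (fun ω (i : ↥(D c)) => ξ i ω) ⁻¹' G' := by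
        ext ω
        simp only [hG, hG', Set.mem_ofPred_eq, Set.mem_inter_iff, Set.mem_preimage]
        constructor
        · intro hω
          exact ⟨fun b hb => hω b (by omega), hω c (by omega)⟩
        · intro hω b hb
          rcases Nat.lt_succ_iff_lt_or_eq.1 hb with hb | rfl
          · exact hω.1 b hb
          · exact hω.2
      have e2 : (fun ω (i : ↥U) => ξ i ω) ⁻¹' G = {ω | ∀ b < c, ¬ s b (fun i => ξ i ω)} := by
        ext ω
        simp only [hG, Set.mem_ofPred_eq, Set.mem_preimage]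
      have e3 : μ.real ((fun ω (i : ↥(D c)) => ξ i ω) ⁻¹' G') ≤ 1 - p := by
        have hpc := (hp c (by omega)).trans (H.prob (D c) (s c))
        have hcompl : (fun ω (i : ↥(D c)) => ξ i ω) ⁻¹' G' =
            {ω | s c (fun i => ξ i ω)}ᶜ := by
          ext ω
          simp only [hG', Set.mem_ofPred_eq, Set.mem_preimage, Set.mem_compl_iff]
        have hms : MeasurableSet {ω | s c (fun i : ↥(D c) => ξ i ω)} := by
          have hm : Measurable (fun ω (i : ↥(D c)) => ξ i ω) :=
            measurable_pi_lambda _ fun i => H.meas i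
          exact hm (Set.to_countable {v : ↥(D c) → ℕ | s c v}).measurableSet
        rw [hcompl, probReal_compl_eq_one_sub hms]
        linarith
      rw [e1, measureReal_def, hmul, ENNReal.toReal_mul, ← measureReal_def, ← measureReal_def,
        e2, pow_succ]
      exact mul_le_mul ih' e3 measureReal_nonneg (pow_nonneg (by linarith) _)
  exact key B le_rfl

lemma SuccC.rep {q k t n : ℕ} {D : Finset ℕ} {U : Set ℕ} {a : ℕ → ℕ} (hD : ∀ x ∈ D, x ∉ U)
    (hU : ∀ x ∈ U, a x = 0) (hs : SuccC q k t n D U (fun i => a i)) : RepQ q k t a n := by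
  obtain ⟨l, h1, h2, h3, h4⟩ := hs
  refine ⟨l, h1, h2, ?_⟩
  rw [← h4]
  unfold ffq
  congr 1
  refine List.map_congr_left fun y hy => ?_
  unfold vv
  rcases h3 y hy with h5 | h5
  · rw [dif_pos h5]
  · rw [dif_neg (fun hcon => hD y hcon h5), hU y h5]

end Pool.Agent.R500.WC
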