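import Mathlib
import Pool.Agent.R500.WC.Block
import Pool.Agent.R500.WB.Main

set_option autoImplicit false

/-!
# Sparse sets of moved powers: the choice of the parameters
-/

namespace Pool.Agent.R500.WC

open Finset Function MeasureTheory ProbabilityTheory Filter Topology
open Pool.Agent.R500.WA Pool.Agent.R500.WB
open scoped Classical

/-- The set `M` of the moved indices: for all large `X` every residue class modulo `q` contains at
least `X ^ κ` elements of `M` between `X` and `2 X`; and in every window of a fixed length every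
residue class modulo `q` contains an integer outside `M`. -/
structure Thick (q : ℕ) (κ : ℝ) (M : Set ℕ) : Prop where
  many : ∀ᶠ X : ℕ in atTop, ∀ r : ℕ,
    (X : ℝ) ^ κ ≤ (((Finset.Ioc X (2 * X)).filter fun x => x ∈ M ∧ x ≡ r [MOD q]).card : ℝ)
  gaps : ∃ C : ℕ, ∀ r x : ℕ, C ≤ x → ∃ y, y ≤ x ∧ x < y + C ∧ y ≡ r [MOD q] ∧ y ∉ M

/-- the number of the possible values of the noise -/
noncomputable def hM (M : Set ℕ) (e : ℝ) (x : ℕ) : ℕ := if x ∈ M then hh e x else 1

lemma exists_enum (s : Finset ℕ) : ∃ f : ℕ → ℕ, (∀ j < s.card, f j ∈ s) ∧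
    ∀ i < s.card, ∀ j < s.card, f i = f j → i = j := by
  refine ⟨fun j => if h : j < s.card then s.orderEmbOfFin rfl ⟨j, h⟩ else 0, ?_, ?_⟩
  · intro j hj
    simp only [dif_pos hj]
    exact Finset.orderEmbOfFin_mem _ _ _
  · intro i hi j hj hij
    simp only [dif_pos hi, dif_pos hj] at hij
    have := (s.orderEmbOfFin rfl).injective hij
    exact congrArg Fin.val this

lemma dec_inj {m a t a' t' : ℕ} (ht : t < m) (ht' : t' < m) (h : a * m + t = a' * m + t') :
    a = a' ∧ t = t' := by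
  have hm : 0 < m := by omega
  have h3 : (a * m + t) / m = a := by
    rw [mul_comm, Nat.mul_add_div hm, Nat.div_eq_of_lt ht, add_zero]
  have h4 : (a' * m + t') / m = a' := by
    rw [mul_comm, Nat.mul_add_div hm, Nat.div_eq_of_lt ht', add_zero]
  have h5 : a = a' := by rw [← h3, ← h4, h]
  subst h5
  exact ⟨rfl, by omega⟩

/-- the construction of the blocks from numerical data -/
theorem blocks {q k F J C n m L Y Z B N Hmax Hmin : ℕ} {e δ : ℝ} {M : Set ℕ} (hq : 1 ≤ q)
    (hk : 1 ≤ k) (hC : 1 ≤ C) (hw : Win q C Mᶜ) (he : 0 ≤ e)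
    (hZ1 : 1 ≤ Z) (hZY : 2 * Z ≤ Y)
    (hcZ : ∀ r : ℕ, B * F * m ≤
      ((Finset.Ioc Z (2 * Z)).filter fun x => x ∈ M ∧ x ≡ r [MOD q]).card)
    (hcY : ∀ r : ℕ, B ≤ ((Finset.Ioc Y (2 * Y)).filter fun x => x ∈ M ∧ x ≡ r [MOD q]).card)
    (hn : F * (2 * Z) ^ k + q * L + J * (2 * C) ^ k + (2 * Y) ^ k ≤ n)
    (hL : F * hh e (2 * Z) ≤ L)
    (hR : (L : ℝ) + (2 * J + 1) * (2 * (C : ℝ)) ^ k + A k C ^ J * (n : ℝ) ^ (θ k ^ J) < hh e Y)
    (hN : N ≤ m ^ F) (hmax : hh e (2 * Y) ≤ Hmax) (hmin : Hmin ≤ hh e Z) (hmin0 : 0 < Hmin)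
    (hδ1 : δ ≤ 1) {l : List ℕ} (hl : l.length = F + 1 + J)
    (hs : (l.map (fun y => y ^ k)).sum ≡ n [MOD q]) :
    ∃ D : ℕ → Finset ℕ, (∀ b < B, ∀ x ∈ D b, x ∈ M) ∧
      (∀ b < B, ∀ c < B, b ≠ c → Disjoint (D b) (D c)) ∧
      ∀ b < B, ∀ ν : ↥(D b) → ℕ → ℝ, Law (fun i : ↥(D b) => hM M e i) ν δ →
        N * (δ ^ (F + 1) / Hmax) - N * N * (δ / Hmin * (δ / Hmin)) ≤
          Ex (fun i : ↥(D b) => hM M e i) ν
            (fun v => if SuccC q k (F + 1 + J) n (D b) Mᶜ v then 1 else 0) := by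
  obtain ⟨r₀, hr₀, s, hs1, ts, hts, htsJ, hsum⟩ := split hq l hl hs
  choose g hg1 hg2 using fun r : ℕ =>
    exists_enum ((Finset.Ioc Z (2 * Z)).filter fun x => x ∈ M ∧ x ≡ r [MOD q])
  obtain ⟨u, hu1, hu2⟩ :=
    exists_enum ((Finset.Ioc Y (2 * Y)).filter fun x => x ∈ M ∧ x ≡ r₀ [MOD q])
  have hidx : ∀ b < B, ∀ (i : Fin F) (t : Fin m), (b * F + i) * m + t < B * F * m := by
    intro b hb i t
    have h1 : b * F + i + 1 ≤ B * F := by
      have h2 : (b + 1) * F ≤ B * F := Nat.mul_le_mul_right F hb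
      have := i.2
      rw [add_mul, one_mul] at h2
      omega
    have h2 : (b * F + i + 1) * m ≤ B * F * m := Nat.mul_le_mul_right m h1
    have := t.2
    rw [add_mul, one_mul] at h2
    omega
  obtain ⟨zz, hzz⟩ : ∃ zz : ℕ → Fin F → Fin m → ℕ,
    zz = fun (b : ℕ) (i : Fin F) (t : Fin m) => g (s i) ((b * F + i) * m + t) := ⟨_, rfl⟩
  have hz : ∀ b < B, ∀ i t, (Z < zz b i t ∧ zz b i t ≤ 2 * Z) ∧ zz b i t ∈ M ∧
      zz b i t ≡ s i [MOD q] := by
    intro b hb i t
    have h1 := hg1 (s i) _ ((hidx b hb i t).trans_le (hcZ _))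
    rw [Finset.mem_filter, Finset.mem_Ioc] at h1
    rw [hzz]
    exact h1
  have hu : ∀ b < B, (Y < u b ∧ u b ≤ 2 * Y) ∧ u b ∈ M ∧ u b ≡ r₀ [MOD q] := by
    intro b hb
    have h1 := hu1 b (hb.trans_le (hcY _))
    rw [Finset.mem_filter, Finset.mem_Ioc] at h1
    exact h1
  have hinj : ∀ b < B, ∀ b' < B, ∀ i t i' t', zz b i t = zz b' i' t' → b = b' ∧ i = i' ∧ t = t' := by
    intro b hb b' hb' i t i' t' heq
    have h1 := (hz b hb i t).2.2
    have h2 := (hz b' hb' i' t').2.2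
    rw [heq] at h1
    have h3 : s i = s i' := (h1.symm.trans h2).eq_of_lt_of_lt (hs1 i) (hs1 i')
    rw [hzz] at heq
    simp only at heq
    rw [h3] at heq
    have h4 := hg2 (s i') _ ((hidx b hb i t).trans_le (hcZ _)) _
      ((hidx b' hb' i' t').trans_le (hcZ _)) heq
    obtain ⟨h5, h6⟩ := dec_inj t.2 t'.2 h4
    obtain ⟨h7, h8⟩ := dec_inj i.2 i'.2 h5
    exact ⟨h7, Fin.ext h8, Fin.ext h6⟩
  refine ⟨fun b => insert (u b) ((univ : Finset (Fin F × Fin m)).image
    (fun p => zz b p.1 p.2)), ?_, ?_, ?_⟩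
  · intro b hb x hx
    rw [Finset.mem_insert, Finset.mem_image] at hx
    rcases hx with rfl | ⟨p, -, rfl⟩
    · exact (hu b hb).2.1
    · exact (hz b hb _ _).2.1
  · intro b hb c hc hbc
    rw [Finset.disjoint_left]
    intro x hx hx'
    rw [Finset.mem_insert, Finset.mem_image] at hx hx'
    rcases hx with rfl | ⟨p, -, rfl⟩
    · rcases hx' with h1 | ⟨p', -, h1⟩
      · exact hbc (hu2 b (hb.trans_le (hcY _)) c (hc.trans_le (hcY _)) h1)
      · have := (hz c hc p'.1 p'.2).1.2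
        have := (hu b hb).1.1
        omega
    · rcases hx' with h1 | ⟨p', -, h1⟩
      · have := (hz b hb p.1 p.2).1.2
        have := (hu c hc).1.1
        omega
      · exact hbc (hinj c hc b hb _ _ _ _ h1).1.symm
  · intro b hb ν H
    have hwD : u b ∈ insert (u b) ((univ : Finset (Fin F × Fin m)).image
        (fun p => zz b p.1 p.2)) := Finset.mem_insert_self _ _
    have hzD : ∀ i t, zz b i t ∈ insert (u b) ((univ : Finset (Fin F × Fin m)).image
        (fun p => zz b p.1 p.2)) := fun i t =>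
      Finset.mem_insert_of_mem (Finset.mem_image.2 ⟨(i, t), Finset.mem_univ _, rfl⟩)
    have hhu : hM M e (u b) = hh e (u b) := if_pos (hu b hb).2.1
    have hhz : ∀ i t, hM M e (zz b i t) = hh e (zz b i t) := fun i t => if_pos (hz b hb i t).2.1
    have hzsum : ∀ x : Fin F → Fin m, ∑ i, (zz b i (x i)) ^ k ≤ F * (2 * Z) ^ k := by
      intro x
      have := Finset.sum_le_card_nsmul (univ : Finset (Fin F))
        (fun i => (zz b i (x i)) ^ k) ((2 * Z) ^ k)
        (fun i _ => Nat.pow_le_pow_left (hz b hb i (x i)).1.2 k)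
      simpa using this
    have huk : (u b) ^ k ≤ (2 * Y) ^ k := Nat.pow_le_pow_left (hu b hb).1.2 k
    have hdata : ∀ x : Fin F → Fin m, ∃ (ys : List ℕ) (R : ℕ), ys.length = J ∧
        (∀ y ∈ ys, 1 ≤ y ∧ y ∈ Mᶜ) ∧
        (u b) ^ k + ∑ i, (zz b i (x i)) ^ k + (ys.map (fun y => y ^ k)).sum + q * (L + R) = n ∧
        L + R < hM M e (u b) := by
      intro x
      have hzx := hzsum x
      obtain ⟨r, hr⟩ : ∃ r, (u b) ^ k + ∑ i, (zz b i (x i)) ^ k + q * L + J * (2 * C) ^ k + r = n :=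
        ⟨n - ((u b) ^ k + ∑ i, (zz b i (x i)) ^ k + q * L + J * (2 * C) ^ k), by omega⟩
      obtain ⟨ys, R, g1, g2, g3, g4, g5⟩ := greedyU hk hC hw ts r
      rw [htsJ] at g4 g5
      have htot : (u b) ^ k + ∑ i, (zz b i (x i)) ^ k + (ys.map (fun y => y ^ k)).sum +
          (q * L + R) = n := by omega
      have hqR : q ∣ R := by
        have hzm : ∑ i : Fin F, (zz b i (x i)) ^ k ≡ ∑ i, s i ^ k [MOD q] :=
          Nat.ModEq.sum fun i _ => Nat.ModEq.pow k (hz b hb i (x i)).2.2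
        have e1 : (u b) ^ k + ∑ i, (zz b i (x i)) ^ k + (ys.map (fun y => y ^ k)).sum ≡
            r₀ ^ k + ∑ i, s i ^ k + (ts.map (fun y => y ^ k)).sum [MOD q] :=
          (((hu b hb).2.2.pow k).add hzm).add g3
        have e2 : (u b) ^ k + ∑ i, (zz b i (x i)) ^ k + (ys.map (fun y => y ^ k)).sum +
            (q * L + R) ≡ (u b) ^ k + ∑ i, (zz b i (x i)) ^ k +
              (ys.map (fun y => y ^ k)).sum + 0 [MOD q] := by
          rw [htot, add_zero]
          exact (e1.trans hsum).symm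
        have e3 : q * L + R ≡ 0 [MOD q] := Nat.ModEq.add_left_cancel' _ e2
        rw [Nat.modEq_zero_iff_dvd] at e3
        exact (Nat.dvd_add_right (dvd_mul_right q L)).1 e3
      obtain ⟨R', hR'⟩ := hqR
      have hR'R : R' ≤ R := by
        rw [hR']
        exact Nat.le_mul_of_pos_left _ hq
      refine ⟨ys, R', by rw [g1, htsJ], g2, ?_, ?_⟩
      · rw [mul_add, ← hR']
        exact htot
      · rw [hhu]
        have h1 : hh e Y ≤ hh e (u b) := hh_mono he (hu b hb).1.1.le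
        refine lt_of_lt_of_le ?_ h1
        have h2 : (r : ℝ) ^ (θ k ^ J) ≤ (n : ℝ) ^ (θ k ^ J) := by
          refine Real.rpow_le_rpow (Nat.cast_nonneg _) ?_ (pow_nonneg (θ_nonneg hk) _)
          have : r ≤ n := by omega
          exact_mod_cast this
        have hA0 : (0 : ℝ) ≤ A k C ^ J := pow_nonneg (by linarith [one_le_A hk hC]) _
        have h3 := mul_le_mul_of_nonneg_left h2 hA0
        have h4 : ((L + R' : ℕ) : ℝ) < hh e Y := by
          have h5 : (R' : ℝ) ≤ R := by exact_mod_cast hR'R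
          push_cast
          linarith only [h3, h5, g5, hR]
        exact_mod_cast h4
    choose ys R d1 d2 d3 d4 using hdata
    refine blockC (m := m) (L := L) (w := u b) (h := hM M e) hq ?_ hwD ?_ (z := zz b) hzD ?_ ?_ ?_
      ?_ (ys := ys) d1 d2 (R := R) d3 d4 hN ?_ ?_ hmin0 hδ1 H
    · intro x hx hxM
      rw [Finset.mem_insert, Finset.mem_image] at hx
      rcases hx with rfl | ⟨p, -, rfl⟩
      · exact hxM (hu b hb).2.1
      · exact hxM (hz b hb _ _).2.1
    · have := (hu b hb).1.1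
      omega
    · intro i t
      have := (hz b hb i t).1.1
      omega
    · intro i t h1
      have := (hz b hb i t).1.2
      have := (hu b hb).1.1
      omega
    · intro i t i' t' h1
      exact (hinj b hb b hb _ _ _ _ h1).2
    · intro x
      refine le_trans ?_ hL
      have := Finset.sum_le_card_nsmul (univ : Finset (Fin F))
        (fun i => hM M e (zz b i (x i))) (hh e (2 * Z))
        (fun i _ => by rw [hhz]; exact hh_mono he (hz b hb i (x i)).1.2)
      simpa using this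
    · rw [hhu]
      exact (hh_mono he (hu b hb).1.2).trans hmax
    · intro i t
      rw [hhz]
      exact hmin.trans (hh_mono he (hz b hb i t).1.1.le)

end Pool.Agent.R500.WC
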