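import Mathlib
import Pool.Agent.R500.WC.Asym

set_option autoImplicit false

/-!
# Sparse sets of moved powers: the main theorem
-/

namespace Pool.Agent.R500.WC

open Finset Function MeasureTheory ProbabilityTheory Filter Topology
open Pool.Agent.R500.WA Pool.Agent.R500.WB
open scoped Classical

/-- The size condition. -/
lemma size_ineqC {k F J n T Y C Z : ℕ} {D X : ℝ} (hk : 1 ≤ k) (hF1 : 1 ≤ F)
    (hn0 : (0 : ℝ) < n)
    (hD16 : (16 : ℝ) ≤ D) (hDF : (16 : ℝ) * F ≤ D) (hXk : X ^ k = n)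
    (h2Z : ((2 * Z : ℕ) : ℝ) ≤ 2 / D * X) (hY_le : ((2 * Y : ℕ) : ℝ) ≤ 1 / 2 * X)
    (hT : (T : ℝ) ≤ n / 8) (E3 : 16 * (J : ℝ) * (2 * C) ^ k ≤ n) :
    F * (2 * Z) ^ k + T + J * (2 * C) ^ k + (2 * Y) ^ k ≤ n := by
  have hF0 : (0 : ℝ) < F := by exact_mod_cast hF1
  have hD0 : 0 < D := by linarith only [hD16]
  have h1 : (F : ℝ) * ((2 * Z : ℕ) : ℝ) ^ k ≤ n / 8 := by
    have h2 : ((2 * Z : ℕ) : ℝ) ^ k ≤ (2 / D * X) ^ k :=
      pow_le_pow_left₀ (Nat.cast_nonneg _) h2Z _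
    rw [mul_pow, hXk] at h2
    have h3 : (2 / (D : ℝ)) ^ k ≤ 2 / D := by
      refine pow_le_of_le_one (by positivity) ?_ (by omega)
      rw [div_le_one hD0]; linarith only [hD16]
    have h5 : (F : ℝ) * (2 / D) ≤ 1 / 8 := by
      rw [mul_div_assoc', div_le_div_iff₀ hD0 (by norm_num)]; linarith only [hDF]
    calc (F : ℝ) * ((2 * Z : ℕ) : ℝ) ^ k ≤ F * ((2 / D) ^ k * n) :=
          mul_le_mul_of_nonneg_left h2 hF0.le
      _ ≤ F * (2 / D * n) := by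
          refine mul_le_mul_of_nonneg_left ?_ hF0.le
          exact mul_le_mul_of_nonneg_right h3 hn0.le
      _ = F * (2 / D) * n := by rw [mul_assoc]
      _ ≤ 1 / 8 * n := mul_le_mul_of_nonneg_right h5 hn0.le
      _ = n / 8 := by rw [one_div, inv_mul_eq_div]
  have h3 : (J : ℝ) * (2 * C) ^ k ≤ n / 16 := by linarith only [E3]
  have h4 : ((2 * Y : ℕ) : ℝ) ^ k ≤ n / 2 := by
    have h7 : ((2 * Y : ℕ) : ℝ) ^ k ≤ (1 / 2 * X) ^ k :=
      pow_le_pow_left₀ (Nat.cast_nonneg _) hY_le _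
    rw [mul_pow, hXk] at h7
    have h8 : (1 / 2 : ℝ) ^ k ≤ 1 / 2 :=
      pow_le_of_le_one (by norm_num) (by norm_num) (by omega)
    have := mul_le_mul_of_nonneg_right h8 hn0.le
    linarith only [this, h7]
  have h5 : ((F * (2 * Z) ^ k + T + J * (2 * C) ^ k + (2 * Y) ^ k : ℕ) : ℝ) ≤ n := by
    push_cast
    push_cast at h1 h4
    linarith only [h1, hT, h3, h4, hn0]
  exact_mod_cast h5

/-- The final remainder fits into the noise range. -/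
lemma rem_ineqC {F J L : ℕ} {e S h P Q : ℝ} (h8e0 : (0 : ℝ) < (1 / 8) ^ e)
    (hL_le : (L : ℝ) ≤ (1 / 8) ^ e / 4 * S + (F + J)) (h1 : (1 / 8) ^ e * S < h)
    (hS0 : 0 < S)
    (E6 : 8 * ((F : ℝ) + J + 1) / (1 / 8) ^ e ≤ S)
    (E7 : 8 * P / (1 / 8) ^ e ≤ S)
    (E8 : 8 * Q / (1 / 8) ^ e ≤ S) :
    (L : ℝ) + P + Q < h := by
  refine lt_of_le_of_lt ?_ h1
  rw [div_le_iff₀ h8e0] at E6 E7 E8
  have h5 : (0 : ℝ) < (1 / 8) ^ e * S := mul_pos h8e0 hS0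
  linarith only [E6, E7, E8, hL_le, h5]

/-- The number of the tuples. -/
lemma tuples_ineqC {F m N B : ℕ} {c₂ a S Zκ : ℝ} (hF1 : 1 ≤ F) (hB : 1 ≤ B) (ha0 : 0 < a)
    (hS0 : 0 < S)
    (hc₂1 : c₂ ≤ 1) (hN_le : (N : ℝ) ≤ c₂ * S) (hm : m = ⌊Zκ / (B * F)⌋₊) (hZ : a ≤ Zκ)
    (E9 : 2 * (B * F) ≤ a) (E10 : (2 * (B * F)) ^ F * S ≤ a ^ F) : N ≤ m ^ F := by
  have hBF : (0 : ℝ) < B * F := by
    have h1 : (0 : ℝ) < B := by exact_mod_cast hB
    have h2 : (0 : ℝ) < F := by exact_mod_cast hF1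
    positivity
  have h1 : a / (B * F) ≤ Zκ / (B * F) := div_le_div_of_nonneg_right hZ hBF.le
  have h2 : 2 ≤ a / (B * F) := by rw [le_div_iff₀ hBF]; exact E9
  have h3 : Zκ / (B * F) < m + 1 := by rw [hm]; exact Nat.lt_floor_add_one _
  have h4 : a / (2 * (B * F)) ≤ m := by
    have : a / (2 * (B * F)) = a / (B * F) / 2 := by
      rw [div_div]; congr 1; ring
    rw [this]
    linarith
  have h5 : (a / (2 * (B * F))) ^ F ≤ (m : ℝ) ^ F := pow_le_pow_left₀ (by positivity) h4 _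
  have h6 : S ≤ (a / (2 * (B * F))) ^ F := by
    rw [div_pow, le_div_iff₀ (by positivity), mul_comm]
    exact E10
  have h7 : (N : ℝ) ≤ (m : ℝ) ^ F := by
    have : c₂ * S ≤ S := by nlinarith
    linarith
  exact_mod_cast h7

/-- **The uniform lower bound for all large `n` and all blocks.** -/
theorem eventually_blockC {q k F J : ℕ} {η δ κ : ℝ} {M : Set ℕ} (hq : 1 ≤ q) (hk : 1 ≤ k)
    (hη0 : 0 < η) (hη1 : η < 1) (hκ0 : 0 < κ)
    (hF : η * k < κ * F) (hJ : θ k ^ J < η) (hδ0 : 0 < δ) (hδ1 : δ ≤ 1) (hTh : Thick q κ M) :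
    ∃ p : ℝ, 0 < p ∧ p ≤ 1 ∧ ∀ᶠ n : ℕ in atTop, ∀ l : List ℕ, l.length = F + 1 + J →
      (l.map (fun y => y ^ k)).sum ≡ n [MOD q] →
      ∃ D : ℕ → Finset ℕ, (∀ b < BB n, ∀ x ∈ D b, x ∈ M) ∧
        (∀ b < BB n, ∀ c < BB n, b ≠ c → Disjoint (D b) (D c)) ∧
        ∀ b < BB n, ∀ ν : ↥(D b) → ℕ → ℝ, Law (fun i : ↥(D b) => hM M (η * k) i) ν δ →
          p ≤ Ex (fun i : ↥(D b) => hM M (η * k) i) ν
            (fun v => if SuccC q k (F + 1 + J) n (D b) Mᶜ v then 1 else 0) := by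
  have hk0 : (0 : ℝ) < k := by exact_mod_cast hk
  obtain ⟨e, he⟩ : ∃ e : ℝ, e = η * k := ⟨_, rfl⟩
  rw [← he]
  have he0 : 0 < e := by rw [he]; positivity
  have hF0 : (0 : ℝ) < F := by
    have h1 : 0 < κ * F := by rw [← he] at hF; exact he0.trans hF
    exact (pos_iff_pos_of_mul_pos h1).1 hκ0
  have hF1 : 1 ≤ F := by exact_mod_cast hF0
  obtain ⟨C, hCg⟩ := hTh.gaps
  have hC1 : 1 ≤ C := by
    by_contra hcon
    have h0 : C = 0 := by omega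
    obtain ⟨y, h1, h2, -⟩ := hCg 0 0 (by omega)
    omega
  have hWin : Win q C Mᶜ := fun c x hx => hCg c x hx
  obtain ⟨X₁, hX₁⟩ := eventually_atTop.1 hTh.many
  obtain ⟨D, hD16, hDF, hDL⟩ := exists_D F J he0
  have hD0 : (0 : ℝ) < D := by positivity
  have hD16' : (16 : ℝ) ≤ D := by exact_mod_cast hD16
  obtain ⟨c₁, hc₁⟩ : ∃ c₁ : ℝ, c₁ = (1 / (2 * D)) ^ e := ⟨_, rfl⟩
  have hc₁0 : 0 < c₁ := by rw [hc₁]; positivity
  have hc₁1 : c₁ ≤ 1 := by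
    rw [hc₁]
    refine Real.rpow_le_one (by positivity) ?_ he0.le
    rw [div_le_one (by positivity)]
    linarith only [hD16']
  obtain ⟨c₂, hc₂⟩ : ∃ c₂ : ℝ, c₂ = δ ^ F * c₁ ^ 2 / 8 := ⟨_, rfl⟩
  have hc₂0 : 0 < c₂ := by rw [hc₂]; positivity
  have hc₂1 : c₂ ≤ 1 := by
    have h1 : δ ^ F ≤ 1 := pow_le_one₀ hδ0.le hδ1
    have h2 : c₁ ^ 2 ≤ 1 := pow_le_one₀ hc₁0.le hc₁1
    have h3 : δ ^ F * c₁ ^ 2 ≤ 1 * 1 := mul_le_mul h1 h2 (by positivity) zero_le_one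
    rw [hc₂]; linarith only [h3]
  refine ⟨c₂ * δ ^ (F + 1) / 16, by positivity, ?_, ?_⟩
  · have h1 : δ ^ (F + 1) ≤ 1 := pow_le_one₀ hδ0.le hδ1
    have h2 : c₂ * δ ^ (F + 1) ≤ 1 * 1 := mul_le_mul hc₂1 h1 (by positivity) zero_le_one
    linarith only [h2]
  -- the asymptotic inequalities
  have hkinv : (0 : ℝ) < 1 / k := by positivity
  have hκk : 0 < κ / k := by positivity
  have hFk : η < κ / k * F := by
    rw [div_mul_eq_mul_div, lt_div_iff₀ hk0]; exact hF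
  obtain ⟨c₃, hc₃⟩ : ∃ c₃ : ℝ, c₃ = (1 / (2 * D)) ^ κ := ⟨_, rfl⟩
  have hc₃0 : 0 < c₃ := by rw [hc₃]; positivity
  have E1 := poly_le (8 * D + 2 * D * X₁ + 8 * X₁ + 128 : ℝ) 0 hkinv
  have E2 := poly_le' (16 * q * (F + J : ℝ)) 0 hη1
  have E3 := poly_le (16 * (J : ℝ) * (2 * C) ^ k) 0 (zero_lt_one)
  have E6 := poly_le (8 * (F + J + 1 : ℝ) / (1 / 8) ^ e) 0 hη0
  have E7 := poly_le (8 * ((2 * (J : ℝ) + 1) * (2 * C) ^ k) / (1 / 8) ^ e) 0 hη0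
  have E8 := poly_le' (8 * (A k C) ^ J / (1 / 8) ^ e : ℝ) 0 hJ
  have E9 := poly_le (2 * F / c₃ : ℝ) 1 hκk
  have E10 := poly_le' ((2 * F / c₃ : ℝ) ^ F) F hFk
  have E11 := poly_le (2 / c₂) 0 hη0
  have E12 := poly_le (1 / (1 / 8) ^ κ : ℝ) 1 hκk
  filter_upwards [E1, E2, E3, E6, E7, E8, E9, E10, E11, E12, eventually_gt_atTop 1] with n
    E1 E2 E3 E6 E7 E8 E9 E10 E11 E12 hn1
  intro l hl hs
  have hn0 : (0 : ℝ) < n := by
    have : 0 < n := by omega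
    exact_mod_cast this
  have hnone : (1 : ℝ) ≤ n := by exact_mod_cast hn1.le
  simp only [pow_zero, mul_one, Real.rpow_one, pow_one] at E1 E2 E3 E6 E7 E8 E9 E10 E11 E12
  have hB1 : 1 ≤ BB n := by unfold BB; omega
  generalize BB n = B at *
  have hBR : (1 : ℝ) ≤ B := by exact_mod_cast hB1
  obtain ⟨X, hX⟩ : ∃ X : ℝ, X = (n : ℝ) ^ (1 / (k : ℝ)) := ⟨_, rfl⟩
  rw [← hX] at E1
  have hX0 : 0 < X := by rw [hX]; positivity
  have hXk : X ^ k = n := by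
    rw [hX, ← Real.rpow_natCast, ← Real.rpow_mul hn0.le, one_div, inv_mul_cancel₀ hk0.ne',
      Real.rpow_one]
  have hXe : X ^ e = (n : ℝ) ^ η := by
    rw [hX, ← Real.rpow_mul hn0.le]
    congr 1
    rw [he, one_div, mul_comm, mul_assoc, mul_inv_cancel₀ hk0.ne', mul_one]
  have hXκ : X ^ κ = (n : ℝ) ^ (κ / k) := by
    rw [hX, ← Real.rpow_mul hn0.le]
    congr 1
    ring
  obtain ⟨S, hS⟩ : ∃ S : ℝ, S = (n : ℝ) ^ η := ⟨_, rfl⟩
  rw [← hS] at E2 E6 E7 E8 E10 E11 hXe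
  have hS0 : 0 < S := by rw [hS]; positivity
  have hS1 : 1 ≤ S := by rw [hS]; exact Real.one_le_rpow hnone hη0.le
  have hX₁0 : (0 : ℝ) ≤ X₁ := Nat.cast_nonneg _
  have hDX₁ : (0 : ℝ) ≤ 2 * D * X₁ := by positivity
  have hXD : 8 * D ≤ X := by linarith only [E1, hX₁0, hDX₁]
  have hX128 : 128 ≤ X := by linarith only [E1, hX₁0, hDX₁, hD0]
  -- the choice of `Z` and `Y`
  obtain ⟨Z, hZ⟩ : ∃ Z : ℕ, Z = ⌊X / D⌋₊ := ⟨_, rfl⟩
  have hZ_le : (Z : ℝ) ≤ X / D := by rw [hZ]; exact Nat.floor_le (by positivity)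
  have hZ_gt : X / D < Z + 1 := by rw [hZ]; exact Nat.lt_floor_add_one _
  have hXD8 : 8 ≤ X / D := by rw [le_div_iff₀ hD0]; exact hXD
  have hZ2 : X / (2 * D) ≤ Z := by
    have : X / (2 * D) = X / D / 2 := by rw [div_div]; congr 1; ring
    rw [this]
    linarith only [hZ_gt, hXD8]
  have hZ1 : 1 ≤ Z := by
    have : (0 : ℝ) < Z := by linarith only [hZ_gt, hXD8]
    exact_mod_cast this
  have hZX₁ : X₁ ≤ Z := by
    have h1 : (X₁ : ℝ) ≤ X / (2 * D) := by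
      rw [le_div_iff₀ (by positivity)]
      linarith only [E1, hX₁0, hD0]
    exact_mod_cast h1.trans hZ2
  obtain ⟨Y, hY⟩ : ∃ Y : ℕ, Y = ⌊X / 4⌋₊ := ⟨_, rfl⟩
  have hY_le : (Y : ℝ) ≤ X / 4 := by rw [hY]; exact Nat.floor_le (by positivity)
  have hY_gt : X / 4 < Y + 1 := by rw [hY]; exact Nat.lt_floor_add_one (X / 4)
  have hY_ge : X / 8 ≤ Y := by linarith only [hY_gt, hX128]
  have hYX₁ : X₁ ≤ Y := by
    have h1 : (X₁ : ℝ) ≤ X / 8 := by linarith only [E1, hDX₁, hD0]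
    exact_mod_cast h1.trans hY_ge
  have h2Z : ((2 * Z : ℕ) : ℝ) ≤ 2 / D * X := by
    push_cast
    calc (2 : ℝ) * Z ≤ 2 * (X / D) := mul_le_mul_of_nonneg_left hZ_le (by norm_num)
      _ = _ := by ring
  have h2Y : ((2 * Y : ℕ) : ℝ) ≤ 1 / 2 * X := by
    push_cast
    linarith only [hY_le]
  obtain ⟨L, hL⟩ : ∃ L : ℕ, L = (F + J) * hh e (2 * Z) := ⟨_, rfl⟩
  have hL_le : (L : ℝ) ≤ (1 / 8) ^ e / 4 * S + (F + J) := by
    have h1 := hh_le he0.le h2Z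
    rw [Real.mul_rpow (by positivity) hX0.le, hXe] at h1
    rw [hL]
    push_cast
    push_cast at hDL
    have h2 : (0 : ℝ) ≤ (F : ℝ) + J := by positivity
    calc ((F : ℝ) + J) * (hh e (2 * Z) : ℝ) ≤ (F + J) * ((2 / (D : ℝ)) ^ e * S + 1) :=
          mul_le_mul_of_nonneg_left h1 h2
      _ = (F + J) * (2 / (D : ℝ)) ^ e * S + (F + J) := by ring
      _ ≤ _ := by
          have := mul_le_mul_of_nonneg_right hDL hS0.le
          linarith only [this]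
  have h8e : (1 / 8 : ℝ) ^ e ≤ 1 := Real.rpow_le_one (by norm_num) (by norm_num) he0.le
  have h8e0 : (0 : ℝ) < (1 / 8) ^ e := by positivity
  have hqL : ((q * L : ℕ) : ℝ) ≤ n / 8 := by
    have h4 : (1 : ℝ) ≤ F := by exact_mod_cast hF1
    have h5 : (0 : ℝ) ≤ J := Nat.cast_nonneg _
    have h6 : (1 / 8 : ℝ) ^ e / 4 * S ≤ (F + J) * S := by
      refine mul_le_mul_of_nonneg_right ?_ hS0.le
      linarith only [h8e, h8e0, h4, h5]
    have h7 : (F : ℝ) + J ≤ (F + J) * S :=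
      le_mul_of_one_le_right (by linarith only [h4, h5]) hS1
    have h8 : (L : ℝ) ≤ 2 * ((F + J) * S) := by linarith only [h6, h7, hL_le]
    have h9 := mul_le_mul_of_nonneg_left h8 (Nat.cast_nonneg (α := ℝ) q)
    push_cast
    linarith only [h9, E2]
  have hYhh : (1 / 8) ^ e * S < (hh e Y : ℝ) := by
    have h1 : (1 / 8 * X) ^ e < (hh e Y : ℝ) :=
      hh_gt he0.le (by positivity) (by linarith only [hY_ge])
    rw [Real.mul_rpow (by norm_num) hX0.le, hXe] at h1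
    exact h1
  -- the number of tuples
  obtain ⟨N, hN⟩ : ∃ N : ℕ, N = ⌊c₂ * S⌋₊ := ⟨_, rfl⟩
  have hN_le : (N : ℝ) ≤ c₂ * S := by rw [hN]; exact Nat.floor_le (by positivity)
  have hc₂S : 2 ≤ c₂ * S := by
    rw [div_le_iff₀ hc₂0] at E11
    linarith only [E11]
  have hN_ge : c₂ * S / 2 ≤ N := by
    have := Nat.lt_floor_add_one (c₂ * S)
    rw [← hN] at this
    linarith only [this, hc₂S]
  obtain ⟨m, hm⟩ : ∃ m : ℕ, m = ⌊(Z : ℝ) ^ κ / (B * F)⌋₊ := ⟨_, rfl⟩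
  obtain ⟨a, ha⟩ : ∃ a : ℝ, a = (X / (2 * D)) ^ κ := ⟨_, rfl⟩
  have ha' : a = c₃ * (n : ℝ) ^ (κ / k) := by
    rw [ha, hc₃, ← hXκ, ← Real.mul_rpow (by positivity) hX0.le]
    congr 1
    ring
  have ha0 : 0 < a := by rw [ha]; positivity
  have hZa : a ≤ (Z : ℝ) ^ κ := by
    rw [ha]
    exact Real.rpow_le_rpow (by positivity) hZ2 hκ0.le
  have E9' : 2 * ((B : ℝ) * F) ≤ a := by
    rw [ha']
    have h1 := mul_le_mul_of_nonneg_left E9 hc₃0.le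
    calc 2 * ((B : ℝ) * F) = c₃ * (2 * F / c₃ * B) := by field_simp
      _ ≤ _ := h1
  have E10' : (2 * ((B : ℝ) * F)) ^ F * S ≤ a ^ F := by
    rw [ha', mul_pow c₃, ← Real.rpow_natCast ((n : ℝ) ^ (κ / k)), ← Real.rpow_mul hn0.le]
    have h1 := mul_le_mul_of_nonneg_left E10 (pow_pos hc₃0 F).le
    have h0 : 2 * ((B : ℝ) * F) = c₃ * (2 * F / c₃) * B := by field_simp
    calc (2 * ((B : ℝ) * F)) ^ F * S = c₃ ^ F * ((2 * F / c₃) ^ F * B ^ F * S) := by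
          rw [h0, mul_pow, mul_pow]
          ring
      _ ≤ _ := h1
  have hNm : N ≤ m ^ F :=
    tuples_ineqC hF1 hB1 ha0 hS0 hc₂1 hN_le hm hZa E9' E10'
  -- the noise ranges
  obtain ⟨Hmax, hHmax⟩ : ∃ Hmax : ℕ, Hmax = ⌊S⌋₊ + 1 := ⟨_, rfl⟩
  have hmax : hh e (2 * Y) ≤ Hmax := by
    unfold hh
    rw [hHmax]
    have h1 : ((2 * Y : ℕ) : ℝ) ^ e ≤ S := by
      rw [← hXe]
      refine Real.rpow_le_rpow (Nat.cast_nonneg _) ?_ he0.le
      linarith only [h2Y, hX0]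
    have := Nat.floor_le_floor h1
    omega
  have hHmax_le : (Hmax : ℝ) ≤ 2 * S := by
    rw [hHmax]
    push_cast
    have := Nat.floor_le hS0.le
    linarith only [this, hS1]
  have hHmax0 : 0 < Hmax := by omega
  have hHmin0 : 0 < hh e Z := by unfold hh; omega
  have hHmin_ge : c₁ * S ≤ (hh e Z : ℝ) := by
    have h1 : (1 / (2 * D) * X) ^ e < (hh e Z : ℝ) := by
      refine hh_gt he0.le (by positivity) ?_
      calc 1 / (2 * (D : ℝ)) * X = X / (2 * D) := by ring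
        _ ≤ _ := hZ2
    rw [Real.mul_rpow (by positivity) hX0.le, hXe, ← hc₁] at h1
    exact h1.le
  have hBF0 : (0 : ℝ) < B * F := by positivity
  have hcZ : ∀ r : ℕ, B * F * m ≤
      ((Finset.Ioc Z (2 * Z)).filter fun x => x ∈ M ∧ x ≡ r [MOD q]).card := by
    intro r
    have h1 := hX₁ Z hZX₁ r
    have h2 : (m : ℝ) ≤ (Z : ℝ) ^ κ / (B * F) := by
      rw [hm]
      exact Nat.floor_le (by positivity)
    rw [le_div_iff₀ hBF0] at h2
    have h3 : ((B * F * m : ℕ) : ℝ) ≤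
        (((Finset.Ioc Z (2 * Z)).filter fun x => x ∈ M ∧ x ≡ r [MOD q]).card : ℝ) := by
      push_cast
      linarith only [h1, h2]
    exact_mod_cast h3
  have hcY : ∀ r : ℕ, B ≤
      ((Finset.Ioc Y (2 * Y)).filter fun x => x ∈ M ∧ x ≡ r [MOD q]).card := by
    intro r
    have h1 := hX₁ Y hYX₁ r
    have h2 : (X / 8) ^ κ ≤ (Y : ℝ) ^ κ := Real.rpow_le_rpow (by positivity) hY_ge hκ0.le
    have h3 : (B : ℝ) ≤ (X / 8) ^ κ := by
      have h4 : (X / 8) ^ κ = (1 / 8) ^ κ * (n : ℝ) ^ (κ / k) := by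
        rw [← hXκ, ← Real.mul_rpow (by positivity) hX0.le]
        congr 1
        ring
      rw [h4]
      have h5 : (0 : ℝ) < (1 / 8) ^ κ := by positivity
      have h6 := mul_le_mul_of_nonneg_left E12 h5.le
      calc (B : ℝ) = (1 / 8) ^ κ * (1 / (1 / 8) ^ κ * B) := by field_simp
        _ ≤ _ := h6
    exact_mod_cast h3.trans (h2.trans h1)
  have h2ZY : 2 * Z ≤ Y := by
    have h1 : ((2 * Z : ℕ) : ℝ) ≤ X / 4 - 1 := by
      refine h2Z.trans ?_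
      have h2 : 2 / (D : ℝ) ≤ 1 / 8 := by
        rw [div_le_div_iff₀ hD0 (by norm_num)]; linarith only [hD16']
      have h3 := mul_le_mul_of_nonneg_right h2 hX0.le
      linarith only [h3, hX128]
    have h2 : X / 4 - 1 ≤ Y := by linarith only [hY_gt]
    exact_mod_cast h1.trans h2
  obtain ⟨Ds, hD1, hD2, hD3⟩ := blocks (N := N) (Hmax := Hmax) (Hmin := hh e Z) (B := B) (m := m)
    (L := L) hq hk hC1 hWin he0.le hZ1 h2ZY hcZ hcY
    (size_ineqC hk hF1 hn0 hD16' (by exact_mod_cast hDF) hXk h2Z h2Y hqL E3)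
    (by rw [hL]; exact Nat.mul_le_mul_right _ (by omega))
    (rem_ineqC h8e0 hL_le hYhh hS0 E6 E7 (by
      refine le_trans (le_of_eq ?_) E8
      ring)) hNm hmax le_rfl hHmin0 hδ1 hl hs
  refine ⟨Ds, hD1, hD2, fun b hb ν H => le_trans ?_ (hD3 b hb ν H)⟩
  have hHmaxR : (0 : ℝ) < Hmax := by exact_mod_cast hHmax0
  rw [hc₂] at hN_le hN_ge ⊢
  exact final_ineq hδ0 hδ1 hc₁0 hS0 (Nat.cast_nonneg _) hN_le hN_ge hHmaxR hHmax_le hHmin_ge

/-- **Sums of moved powers**, a sparse set of the powers being moved. -/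
theorem mainC {q k F J : ℕ} {η δ κ : ℝ} {M : Set ℕ} (hq : 1 ≤ q) (hk : 1 ≤ k)
    (hη0 : 0 < η) (hη1 : η < 1) (hκ0 : 0 < κ)
    (hF : η * k < κ * F) (hJ : θ k ^ J < η) (hδ1 : δ ≤ 1) (hTh : Thick q κ M)
    {Ω : Type*} [MeasurableSpace Ω] {μ : Measure Ω} [IsProbabilityMeasure μ] {ξ : ℕ → Ω → ℕ}
    (H : Noise μ ξ (hM M (η * k)) δ) :
    ∀ᵐ ω ∂μ, ∀ᶠ n : ℕ in atTop,
      (∃ l : List ℕ, l.length = F + 1 + J ∧ (l.map (fun y => y ^ k)).sum ≡ n [MOD q]) →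
        RepQ q k (F + 1 + J) (fun x => ξ x ω) n := by
  obtain ⟨p, hp0, hp1, hp⟩ := eventually_blockC hq hk hη0 hη1 hκ0 hF hJ H.δpos hδ1 hTh
  obtain ⟨Sol, hSol⟩ : ∃ Sol : ℕ → Prop, Sol = fun n =>
    ∃ l : List ℕ, l.length = F + 1 + J ∧ (l.map (fun y => y ^ k)).sum ≡ n [MOD q] := ⟨_, rfl⟩
  have h1 : ∀ᶠ n : ℕ in atTop,
      μ.real {ω | Sol n ∧ ¬ RepQ q k (F + 1 + J) (fun x => ξ x ω) n} ≤ (1 - p) ^ BB n := by
    filter_upwards [hp] with n hn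
    by_cases hs : Sol n
    · have hs' := hs
      rw [hSol] at hs'
      obtain ⟨l, hl, hl2⟩ := hs'
      obtain ⟨D, hD1, hD2, hD3⟩ := hn l hl hl2
      have h3 := failC H hp1 D hD2 (fun b => SuccC q k (F + 1 + J) n (D b) Mᶜ)
        (fun b hb => hD3 b hb _ (H.law _))
      refine le_trans (measureReal_mono ?_ (measure_ne_top _ _)) h3
      intro ω hω b hb hsucc
      refine hω.2 (hsucc.rep (a := fun x => ξ x ω) ?_ ?_)
      · intro x hx hxM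
        exact hxM (hD1 b hb x hx)
      · intro x hx
        have h4 := H.lt x ω
        unfold hM at h4
        rw [if_neg hx] at h4
        omega
    · have h2 : {ω | Sol n ∧ ¬ RepQ q k (F + 1 + J) (fun x => ξ x ω) n} = ∅ := by
        ext ω
        simp only [Set.mem_ofPred_eq, hs, false_and, Set.mem_empty_iff_false]
      rw [h2]
      simp only [measureReal_empty]
      exact pow_nonneg (by linarith) _
  have h2 := ae_eventually_notMem (tsum_ne_top (by linarith) (by linarith) h1)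
  filter_upwards [h2] with ω hω
  filter_upwards [hω] with n hn
  intro hsol
  by_contra hcon
  exact hn ⟨by rw [hSol]; exact hsol, hcon⟩

end Pool.Agent.R500.WC
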