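import Mathlib
import Pool.Agent.R500.WC.Main
import Pool.Agent.R500.WB.Local

set_option autoImplicit false

/-!
# Sparse sets of moved powers: corollaries
-/

namespace Pool.Agent.R500.WC

open Finset Function MeasureTheory ProbabilityTheory Filter Topology
open Pool.Agent.R500.WA Pool.Agent.R500.WB
open scoped Classical

/-- **The main theorem in terms of the moved powers.** -/
theorem coreC {q k t : ℕ} {η δ κ : ℝ} {M : Set ℕ} (hq : 1 ≤ q) (hk : 1 ≤ k) (hη0 : 0 < η)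
    (hη1 : η < 1) (hκ0 : 0 < κ) (hTh : Thick q κ M)
    (ht : (η / κ + Real.log (1 / η)) * k + 2 < t) (hδ0 : 0 < δ) (hδ1 : δ ≤ 1)
    {Ω : Type*} [MeasurableSpace Ω] {μ : Measure Ω} [IsProbabilityMeasure μ] {a : ℕ → Ω → ℕ}
    (hmeas : ∀ x, Measurable (a x)) (hindep : iIndepFun a μ)
    (hfix : ∀ x, x ∉ M → ∀ ω, a x ω = x ^ k)
    (hrange : ∀ (x : ℕ) (ω : Ω), ∃ j : ℕ, (j : ℝ) ≤ ((x : ℝ) ^ k) ^ η ∧ a x ω = x ^ k + q * j)
    (hlow : ∀ x ∈ M, ∀ j : ℕ, (j : ℝ) ≤ ((x : ℝ) ^ k) ^ η →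
      δ / (((x : ℝ) ^ k) ^ η + 1) ≤ μ.real {ω | a x ω = x ^ k + q * j}) :
    ∀ᵐ ω ∂μ, ∀ᶠ n : ℕ in atTop, (∃ ρ : Fin t → ℕ, ∑ i, ρ i ^ k ≡ n [MOD q]) →
      ∃ x : Fin t → ℕ, (∀ i, 0 < x i) ∧ ∑ i, a (x i) ω = n := by
  have hk0 : (0 : ℝ) < k := by exact_mod_cast hk
  have hpow : ∀ x : ℕ, ((x : ℝ) ^ k) ^ η = (x : ℝ) ^ (η * k) := by
    intro x
    rw [← Real.rpow_natCast, ← Real.rpow_mul (Nat.cast_nonneg _), mul_comm]
  have hlog0 : 0 < Real.log (1 / η) := Real.log_pos (by rw [lt_div_iff₀ hη0]; linarith)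
  have hdiv : ∀ x j : ℕ, (x ^ k + q * j - x ^ k) / q = j := by
    intro x j
    rw [Nat.add_sub_cancel_left]
    exact Nat.mul_div_cancel_left j hq
  -- the number of the moved summands
  obtain ⟨F, hFd⟩ : ∃ F : ℕ, F = ⌊η / κ * k⌋₊ + 1 := ⟨_, rfl⟩
  have hF1 : η / κ * k < F := by
    rw [hFd]
    push_cast
    exact Nat.lt_floor_add_one _
  have hF2 : (F : ℝ) ≤ η / κ * k + 1 := by
    rw [hFd]
    push_cast
    have := Nat.floor_le (show (0 : ℝ) ≤ η / κ * k by positivity)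
    linarith
  have hF : η * k < κ * F := by
    have h1 : η / κ * k = η * k / κ := by ring
    rw [h1, div_lt_iff₀ hκ0] at hF1
    linarith
  have hlk : 0 < Real.log (1 / η) * k := by positivity
  have hFt : F + 1 < t := by
    have : ((F + 1 : ℕ) : ℝ) < t := by
      push_cast
      nlinarith
    exact_mod_cast this
  obtain ⟨J, hJd⟩ : ∃ J : ℕ, F + 1 + J = t := ⟨t - (F + 1), by omega⟩
  have hJt : (J : ℝ) = t - F - 1 := by
    rw [← hJd]
    push_cast
    ring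
  have hJ : θ k ^ J < η := by
    refine lt_of_le_of_lt (θ_pow_le hk _) ?_
    rw [← Real.lt_log_iff_exp_lt hη0, neg_lt, ← Real.log_inv, ← one_div, lt_div_iff₀ hk0, hJt]
    linarith
  have H : Noise μ (fun x ω => (a x ω - x ^ k) / q) (hM M (η * k)) (δ / 2) := by
    refine ⟨fun x => (measurable_of_countable (fun m : ℕ => (m - x ^ k) / q)).comp (hmeas x),
      ?_, ?_, ?_, by positivity⟩
    · exact hindep.comp (fun x m => (m - x ^ k) / q) (fun x => measurable_of_countable _)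
    · intro x ω
      by_cases hx : x ∈ M
      · obtain ⟨j, h1, h2⟩ := hrange x ω
        rw [hpow] at h1
        rw [h2, hdiv]
        unfold hM
        rw [if_pos hx]
        unfold hh
        have := Nat.le_floor h1
        omega
      · rw [hfix x hx ω]
        unfold hM
        rw [if_neg hx, Nat.sub_self, Nat.zero_div]
        exact one_pos
    · intro x j hj
      by_cases hx : x ∈ M
      · unfold hM at hj ⊢
        rw [if_pos hx] at hj ⊢
        unfold hh at hj ⊢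
        have hj' : j ≤ ⌊(x : ℝ) ^ (η * k)⌋₊ := by omega
        have hx0 : (0 : ℝ) ≤ (x : ℝ) ^ (η * k) := Real.rpow_nonneg (Nat.cast_nonneg _) _
        have h1 : (j : ℝ) ≤ ((x : ℝ) ^ k) ^ η := by
          rw [hpow]
          exact (Nat.le_floor_iff hx0).1 hj'
        have h2 := hlow x hx j h1
        rw [hpow] at h2
        have h3 : {ω | (a x ω - x ^ k) / q = j} = {ω | a x ω = x ^ k + q * j} := by
          ext ω
          obtain ⟨i, -, h4⟩ := hrange x ω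
          simp only [Set.mem_ofPred_eq]
          constructor
          · intro h5
            rw [h4, hdiv] at h5
            rw [h4, h5]
          · intro h5
            rw [h5, hdiv]
        rw [h3]
        refine le_trans ?_ h2
        push_cast
        have h4 := Nat.lt_floor_add_one ((x : ℝ) ^ (η * k))
        rw [div_div]
        refine div_le_div_of_nonneg_left hδ0.le (by positivity) ?_
        linarith [Nat.cast_nonneg (α := ℝ) ⌊(x : ℝ) ^ (η * k)⌋₊]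
      · unfold hM at hj ⊢
        rw [if_neg hx] at hj ⊢
        have hj0 : j = 0 := by omega
        have h1 : {ω | (a x ω - x ^ k) / q = j} = Set.univ := by
          ext ω
          simp only [Set.mem_ofPred_eq, Set.mem_univ, iff_true]
          rw [hfix x hx ω, hj0, Nat.sub_self, Nat.zero_div]
        rw [h1]
        have h2 : μ.real (Set.univ : Set Ω) = 1 := by simp
        rw [h2, Nat.cast_one, div_one]
        linarith
  have hmain := mainC (μ := μ) hq hk hη0 hη1 hκ0 hF hJ (by linarith) hTh H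
  rw [hJd] at hmain
  filter_upwards [hmain] with ω hω
  filter_upwards [hω] with n hn
  intro hρ
  obtain ⟨ρ, hρ⟩ := hρ
  refine (hn ⟨List.ofFn ρ, by simp, ?_⟩).toFin (b := fun x => a x ω) (fun x => ?_)
  · rw [List.map_ofFn, List.sum_ofFn]
    exact hρ
  · obtain ⟨j, -, h2⟩ := hrange x ω
    rw [h2, hdiv]

/-- **Existence of the model.** -/
theorem exists_movedC (q k : ℕ) {η : ℝ} (hq : 1 ≤ q) (M : Set ℕ) :
    ∃ (Ω : Type) (_ : MeasurableSpace Ω) (μ : Measure Ω) (_ : IsProbabilityMeasure μ)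
      (a : ℕ → Ω → ℕ), (∀ x, Measurable (a x)) ∧ iIndepFun a μ ∧
      (∀ x, x ∉ M → ∀ ω, a x ω = x ^ k) ∧
      (∀ (x : ℕ) (ω : Ω), ∃ j : ℕ, (j : ℝ) ≤ ((x : ℝ) ^ k) ^ η ∧ a x ω = x ^ k + q * j) ∧
      (∀ x ∈ M, ∀ j : ℕ, (j : ℝ) ≤ ((x : ℝ) ^ k) ^ η →
        1 / (((x : ℝ) ^ k) ^ η + 1) ≤ μ.real {ω | a x ω = x ^ k + q * j}) := by
  obtain ⟨Ω, mΩ, μ, hμ, a, h1, h2, h3, h4, -, -⟩ :=
    exists_movedQ q k (η := η) (δ := 1) hq one_pos le_rfl
  refine ⟨Ω, mΩ, μ, hμ, fun x ω => if x ∈ M then a x ω else x ^ k, ?_, ?_, ?_, ?_, ?_⟩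
  · intro x
    exact (measurable_of_countable (fun m : ℕ => if x ∈ M then m else x ^ k)).comp (h1 x)
  · exact h2.comp (fun x m => if x ∈ M then m else x ^ k) (fun x => measurable_of_countable _)
  · intro x hx ω
    simp only [if_neg hx]
  · intro x ω
    by_cases hx : x ∈ M
    · simp only [if_pos hx]
      exact h3 x ω
    · simp only [if_neg hx]
      exact ⟨0, by rw [Nat.cast_zero]; positivity, by simp⟩
  · intro x hx j hj
    simp only [if_pos hx]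
    exact h4 x j hj

/-- The sparse example: the integers `2 q j ^ s + r` with `r < q`. -/
def MS (q s : ℕ) : Set ℕ := {x | ∃ j r : ℕ, r < q ∧ x = 2 * q * j ^ s + r}

lemma MS_mod {q s x : ℕ} (hx : x ∈ MS q s) : x % (2 * q) < q := by
  obtain ⟨j, r, hr, rfl⟩ := hx
  rw [Nat.mul_add_mod, Nat.mod_eq_of_lt (by omega)]
  exact hr

lemma MS_thick {q s : ℕ} {κ : ℝ} (hq : 1 ≤ q) (hs : 1 ≤ s) (hκ : κ < 1 / s) :
    Thick q κ (MS q s) := by
  have hs0 : (0 : ℝ) < s := by exact_mod_cast hs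
  have hq0 : (0 : ℝ) < q := by exact_mod_cast hq
  have hsi : (0 : ℝ) < 1 / s := by positivity
  constructor
  · obtain ⟨c, hc⟩ : ∃ c : ℝ, c = ((3 / 2 : ℝ) ^ (1 / (s : ℝ)) - 1) * (1 / (2 * q)) ^ (1 / (s : ℝ)) :=
      ⟨_, rfl⟩
    have hc0 : 0 < c := by
      rw [hc]
      have : (1 : ℝ) < (3 / 2) ^ (1 / (s : ℝ)) := Real.one_lt_rpow (by norm_num) hsi
      have h2 : (0 : ℝ) < (1 / (2 * q)) ^ (1 / (s : ℝ)) := by positivity
      exact mul_pos (by linarith) h2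
    have E1 := ((tendsto_rpow_atTop (sub_pos.2 hκ)).comp
      tendsto_natCast_atTop_atTop).eventually_ge_atTop (2 / c)
    have E2 := ((tendsto_rpow_atTop hsi).comp
      tendsto_natCast_atTop_atTop).eventually_ge_atTop (2 / c)
    filter_upwards [E1, E2, eventually_ge_atTop (2 * q), eventually_ge_atTop 1] with X E1 E2 hXq hX1
    simp only [Function.comp_apply] at E1 E2
    intro r
    have hX0 : (0 : ℝ) < X := by exact_mod_cast hX1
    obtain ⟨u, hu⟩ : ∃ u : ℝ, u = ((X : ℝ) / (2 * q)) ^ (1 / (s : ℝ)) := ⟨_, rfl⟩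
    obtain ⟨v, hv⟩ : ∃ v : ℝ, v = ((2 * (X : ℝ) - q) / (2 * q)) ^ (1 / (s : ℝ)) := ⟨_, rfl⟩
    have hu0 : 0 ≤ u := by rw [hu]; positivity
    have hXq' : 2 * (q : ℝ) ≤ X := by exact_mod_cast hXq
    have hvb : (0 : ℝ) ≤ (2 * (X : ℝ) - q) / (2 * q) := div_nonneg (by linarith) (by linarith)
    have hv0 : 0 ≤ v := by rw [hv]; exact Real.rpow_nonneg hvb _
    have hus : u ^ s = (X : ℝ) / (2 * q) := by
      rw [hu, ← Real.rpow_natCast, ← Real.rpow_mul (by positivity), one_div,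
        inv_mul_cancel₀ hs0.ne', Real.rpow_one]
    have hvs : v ^ s = (2 * (X : ℝ) - q) / (2 * q) := by
      rw [hv, ← Real.rpow_natCast, ← Real.rpow_mul hvb, one_div,
        inv_mul_cancel₀ hs0.ne', Real.rpow_one]
    -- the elements
    have hcard : ⌊v⌋₊ - ⌊u⌋₊ ≤
        ((Finset.Ioc X (2 * X)).filter fun x => x ∈ MS q s ∧ x ≡ r [MOD q]).card := by
      rw [← Nat.card_Ioc]
      refine Finset.card_le_card_of_injOn (fun j => 2 * q * j ^ s + r % q) ?_ ?_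
      · intro j hj
        rw [Finset.mem_coe, Finset.mem_Ioc] at hj
        rw [Finset.mem_coe, Finset.mem_filter, Finset.mem_Ioc]
        have hr : r % q < q := Nat.mod_lt _ hq
        refine ⟨⟨?_, ?_⟩, ⟨j, r % q, hr, rfl⟩, ?_⟩
        · have h1 : u < j := Nat.lt_of_floor_lt hj.1
          have h2 : u ^ s < (j : ℝ) ^ s := pow_lt_pow_left₀ h1 hu0 (by omega)
          rw [hus, div_lt_iff₀ (by positivity)] at h2
          have h3 : (X : ℝ) < ((2 * q * j ^ s : ℕ) : ℝ) := by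
            push_cast
            linarith
          have h4 : X < 2 * q * j ^ s := by exact_mod_cast h3
          show X < 2 * q * j ^ s + r % q
          omega
        · have h1 : (j : ℝ) ≤ v := (Nat.le_floor_iff hv0).1 hj.2
          have h2 : (j : ℝ) ^ s ≤ v ^ s := pow_le_pow_left₀ (Nat.cast_nonneg _) h1 _
          rw [hvs, le_div_iff₀ (by positivity)] at h2
          have h3 : ((2 * q * j ^ s + q : ℕ) : ℝ) ≤ ((2 * X : ℕ) : ℝ) := by
            push_cast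
            linarith
          have h4 : 2 * q * j ^ s + q ≤ 2 * X := by exact_mod_cast h3
          show 2 * q * j ^ s + r % q ≤ 2 * X
          omega
        · show 2 * q * j ^ s + r % q ≡ r [MOD q]
          unfold Nat.ModEq
          rw [mul_assoc, mul_comm 2, mul_assoc, Nat.mul_add_mod, Nat.mod_mod]
      · intro i _ j _ hij
        simp only at hij
        have h1 : i ^ s = j ^ s := by
          have h2 : 2 * q * i ^ s = 2 * q * j ^ s := by omega
          exact Nat.eq_of_mul_eq_mul_left (by omega) h2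
        exact Nat.pow_left_injective (by omega : s ≠ 0) h1
    have h1 : v - u - 1 ≤ ((⌊v⌋₊ - ⌊u⌋₊ : ℕ) : ℝ) := by
      have h2 : ((⌊v⌋₊ : ℕ) : ℝ) - ((⌊u⌋₊ : ℕ) : ℝ) ≤ ((⌊v⌋₊ - ⌊u⌋₊ : ℕ) : ℝ) := by
        have : ⌊v⌋₊ ≤ (⌊v⌋₊ - ⌊u⌋₊) + ⌊u⌋₊ := by omega
        have h3 : ((⌊v⌋₊ : ℕ) : ℝ) ≤ (((⌊v⌋₊ - ⌊u⌋₊) + ⌊u⌋₊ : ℕ) : ℝ) := by exact_mod_cast this
        push_cast at h3
        linarith
      have h3 := Nat.floor_le hu0
      have h4 := Nat.lt_floor_add_one v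
      linarith
    have h2 : c * (X : ℝ) ^ (1 / (s : ℝ)) ≤ v - u := by
      have h3 : (3 / 2 : ℝ) ^ (1 / (s : ℝ)) * u ≤ v := by
        rw [hu, hv, ← Real.mul_rpow (by norm_num) (by positivity)]
        refine Real.rpow_le_rpow (by positivity) ?_ hsi.le
        rw [mul_div_assoc']
        refine div_le_div_of_nonneg_right ?_ (by positivity)
        linarith
      have h4 : c * (X : ℝ) ^ (1 / (s : ℝ)) = ((3 / 2 : ℝ) ^ (1 / (s : ℝ)) - 1) * u := by
        rw [hc, hu, mul_assoc, ← Real.mul_rpow (by positivity) hX0.le]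
        congr 2
        ring
      rw [h4]
      linarith
    have h3 : (X : ℝ) ^ κ ≤ c * (X : ℝ) ^ (1 / (s : ℝ)) / 2 := by
      have h4 : (X : ℝ) ^ (1 / (s : ℝ)) = (X : ℝ) ^ (1 / (s : ℝ) - κ) * (X : ℝ) ^ κ := by
        rw [← Real.rpow_add hX0]
        congr 1
        ring
      rw [h4]
      rw [div_le_iff₀ hc0] at E1
      have h5 : (0 : ℝ) ≤ (X : ℝ) ^ κ := by positivity
      nlinarith
    have h4 : 1 ≤ c * (X : ℝ) ^ (1 / (s : ℝ)) / 2 := by
      rw [div_le_iff₀ hc0] at E2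
      linarith
    have h5 : ((⌊v⌋₊ - ⌊u⌋₊ : ℕ) : ℝ) ≤
        (((Finset.Ioc X (2 * X)).filter fun x => x ∈ MS q s ∧ x ≡ r [MOD q]).card : ℝ) := by
      exact_mod_cast hcard
    linarith
  · refine ⟨2 * q, fun r x hx => ?_⟩
    have hr : r % q < q := Nat.mod_lt _ hq
    obtain ⟨c, hc⟩ : ∃ c, c = q + r % q := ⟨_, rfl⟩
    have hdm := Nat.div_add_mod (x + (2 * q - c)) (2 * q)
    obtain ⟨A, hA⟩ : ∃ A, A = (x + (2 * q - c)) / (2 * q) := ⟨_, rfl⟩
    obtain ⟨d, hd⟩ : ∃ d, d = (x + (2 * q - c)) % (2 * q) := ⟨_, rfl⟩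
    have hd2 : d < 2 * q := by rw [hd]; exact Nat.mod_lt _ (by omega)
    rw [← hA, ← hd] at hdm
    have hA1 : 1 ≤ A := by
      rw [hA]
      exact (Nat.one_le_div_iff (by omega)).2 (by omega)
    obtain ⟨A', rfl⟩ : ∃ A', A = A' + 1 := ⟨A - 1, by omega⟩
    rw [mul_add, mul_one] at hdm
    refine ⟨2 * q * A' + c, by omega, by omega, ?_, ?_⟩
    · have h1 : 2 * q * A' + c = q * (2 * A' + 1) + r % q := by rw [hc]; ring
      rw [h1]
      unfold Nat.ModEq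
      rw [Nat.mul_add_mod, Nat.mod_mod]
    · intro hcon
      have h1 := MS_mod hcon
      rw [Nat.mul_add_mod, Nat.mod_eq_of_lt (by omega)] at h1
      omega

lemma MS_card {q s : ℕ} (hq : 1 ≤ q) (hs : 1 ≤ s) {X : ℕ} (hX : 1 ≤ X) :
    (((range X).filter fun x => x ∈ MS q s).card : ℝ) ≤ 2 * q * (X : ℝ) ^ (1 / (s : ℝ)) := by
  have hs0 : (0 : ℝ) < s := by exact_mod_cast hs
  have hX1 : (1 : ℝ) ≤ X := by exact_mod_cast hX
  have hsub : (range X).filter (fun x => x ∈ MS q s) ⊆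
      ((range (⌊(X : ℝ) ^ (1 / (s : ℝ))⌋₊ + 1)) ×ˢ range q).image
        (fun p => 2 * q * p.1 ^ s + p.2) := by
    intro x hx
    rw [Finset.mem_filter, Finset.mem_range] at hx
    obtain ⟨hxX, j, r, hr, rfl⟩ := hx
    rw [Finset.mem_image]
    refine ⟨(j, r), ?_, rfl⟩
    rw [Finset.mem_product, Finset.mem_range, Finset.mem_range]
    refine ⟨Nat.lt_succ_of_le (Nat.le_floor ?_), hr⟩
    have h1 : j ^ s ≤ X := by nlinarith [Nat.zero_le (j ^ s)]
    have h2 : (j : ℝ) ^ s ≤ X := by exact_mod_cast h1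
    calc (j : ℝ) = ((j : ℝ) ^ s) ^ (1 / (s : ℝ)) := by
          rw [← Real.rpow_natCast, ← Real.rpow_mul (Nat.cast_nonneg _), mul_one_div,
            div_self hs0.ne', Real.rpow_one]
      _ ≤ (X : ℝ) ^ (1 / (s : ℝ)) := Real.rpow_le_rpow (by positivity) h2 (by positivity)
  have h1 := (Finset.card_le_card hsub).trans Finset.card_image_le
  rw [Finset.card_product, Finset.card_range, Finset.card_range] at h1
  have h2 : (((range X).filter fun x => x ∈ MS q s).card : ℝ) ≤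
      (((⌊(X : ℝ) ^ (1 / (s : ℝ))⌋₊ + 1) * q : ℕ) : ℝ) := by exact_mod_cast h1
  refine h2.trans ?_
  push_cast
  have h3 := Nat.floor_le (show (0 : ℝ) ≤ (X : ℝ) ^ (1 / (s : ℝ)) by positivity)
  have h4 : (1 : ℝ) ≤ (X : ℝ) ^ (1 / (s : ℝ)) := Real.one_le_rpow hX1 (by positivity)
  have h5 : (0 : ℝ) ≤ q := Nat.cast_nonneg _
  nlinarith

/-- The exponent can be lowered a little. -/
lemma exists_kappa {k s t : ℕ} {η c : ℝ} (hk : 1 ≤ k) (hη0 : 0 < η) (hs : 1 ≤ s)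
    (ht : (η * s + c) * k + 2 < t) :
    ∃ κ : ℝ, 0 < κ ∧ κ < 1 / s ∧ (η / κ + c) * k + 2 < t := by
  have hk0 : (0 : ℝ) < k := by exact_mod_cast hk
  have hs0 : (0 : ℝ) < s := by exact_mod_cast hs
  have h1 : Tendsto (fun κ : ℝ => (η / κ + c) * k + 2) (𝓝 (1 / (s : ℝ)))
      (𝓝 ((η / (1 / (s : ℝ)) + c) * k + 2)) := by
    refine Tendsto.add_const _ (Tendsto.mul_const _ (Tendsto.add_const _ ?_))
    exact tendsto_const_nhds.div tendsto_id (by positivity)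
  have h2 : η / (1 / (s : ℝ)) = η * s := by field_simp
  rw [h2] at h1
  have h3 := h1.eventually (gt_mem_nhds ht)
  have h4 : ∀ᶠ κ : ℝ in 𝓝[<] (1 / (s : ℝ)), (η / κ + c) * k + 2 < t ∧ κ < 1 / s ∧ 0 < κ := by
    have h5 : ∀ᶠ κ : ℝ in 𝓝[<] (1 / (s : ℝ)), 0 < κ :=
      nhdsWithin_le_nhds (lt_mem_nhds (by positivity))
    filter_upwards [nhdsWithin_le_nhds h3, self_mem_nhdsWithin, h5] with κ a1 a2 a3
    exact ⟨a1, a2, a3⟩
  obtain ⟨κ, a1, a2, a3⟩ := h4.exists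
  exact ⟨κ, a3, a2, a1⟩

/-- **The deterministic corollary** for a property which holds almost surely. -/
theorem detC {q k s : ℕ} {η : ℝ} (hq : 1 ≤ q) (hs : 1 ≤ s) {P : (ℕ → ℕ) → Prop}
    (hP : ∀ (Ω : Type) [MeasurableSpace Ω] (μ : Measure Ω) [IsProbabilityMeasure μ]
      (a : ℕ → Ω → ℕ), (∀ x, Measurable (a x)) → iIndepFun a μ →
      (∀ x, x ∉ MS q s → ∀ ω, a x ω = x ^ k) →
      (∀ (x : ℕ) (ω : Ω), ∃ j : ℕ, (j : ℝ) ≤ ((x : ℝ) ^ k) ^ η ∧ a x ω = x ^ k + q * j) →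
      (∀ x ∈ MS q s, ∀ j : ℕ, (j : ℝ) ≤ ((x : ℝ) ^ k) ^ η →
        1 / (((x : ℝ) ^ k) ^ η + 1) ≤ μ.real {ω | a x ω = x ^ k + q * j}) →
      ∀ᵐ ω ∂μ, P (fun x => a x ω)) :
    ∃ b : ℕ → ℕ, (∀ x : ℕ, ∃ j : ℕ, (j : ℝ) ≤ ((x : ℝ) ^ k) ^ η ∧ b x = x ^ k + q * j) ∧
      (∀ X : ℕ, 1 ≤ X → (((range X).filter fun x => b x ≠ x ^ k).card : ℝ) ≤
        2 * q * (X : ℝ) ^ (1 / (s : ℝ))) ∧ P b := by
  obtain ⟨Ω, mΩ, μ, hμ, a, h1, h2, h3, h4, h5⟩ := exists_movedC q k (η := η) hq (MS q s)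
  obtain ⟨ω, hω⟩ := (hP Ω μ a h1 h2 h3 h4 h5).exists
  refine ⟨fun x => a x ω, fun x => h4 x ω, fun X hX => ?_, hω⟩
  refine le_trans ?_ (MS_card hq hs hX)
  have h6 : ((range X).filter fun x => a x ω ≠ x ^ k) ⊆ (range X).filter fun x => x ∈ MS q s := by
    intro x hx
    rw [Finset.mem_filter] at hx ⊢
    refine ⟨hx.1, ?_⟩
    by_contra hcon
    exact hx.2 (h3 x hcon ω)
  exact_mod_cast Finset.card_le_card h6

end Pool.Agent.R500.WC
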