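import Mathlib
import Pool.Agent.R500.WC.Cor

set_option autoImplicit false

/-!
# Sparse sets of moved powers: the model
-/

namespace Pool.Agent.R500.WC

open Finset Function MeasureTheory ProbabilityTheory Filter Topology
open Pool.Agent.R500.WA Pool.Agent.R500.WB
open scoped Classical

/-- The `k`-th powers `x ^ k` with `x ∈ M` are moved at random by multiples of `q`, the others are
not moved: the `a x` are independent random natural numbers, `a x = x ^ k` for `x ∉ M`, and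
`a x = x ^ k + q j` with an integer `0 ≤ j ≤ (x ^ k) ^ η` for `x ∈ M`, each such `j` being taken
with at least the probability `δ / ((x ^ k) ^ η + 1)`. -/
structure MovedOn (k q : ℕ) (η δ : ℝ) (M : Set ℕ) {Ω : Type} [MeasurableSpace Ω] (μ : Measure Ω)
    (a : ℕ → Ω → ℕ) : Prop where
  measurable : ∀ x, Measurable (a x)
  indep : iIndepFun a μ
  fixed : ∀ x, x ∉ M → ∀ ω, a x ω = x ^ k
  range : ∀ (x : ℕ) (ω : Ω), ∃ j : ℕ, (j : ℝ) ≤ ((x : ℝ) ^ k) ^ η ∧ a x ω = x ^ k + q * j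
  spread : ∀ x ∈ M, ∀ j : ℕ, (j : ℝ) ≤ ((x : ℝ) ^ k) ^ η →
    δ / (((x : ℝ) ^ k) ^ η + 1) ≤ μ.real {ω | a x ω = x ^ k + q * j}

variable {k q t s : ℕ} {η δ κ : ℝ} {M : Set ℕ}

theorem MovedOn.ae (hq : 1 ≤ q) (hk : 1 ≤ k) (hη0 : 0 < η)
    (hη1 : η < 1) (hκ0 : 0 < κ) (hTh : Thick q κ M)
    (ht : (η / κ + Real.log (1 / η)) * k + 2 < t) (hδ0 : 0 < δ) (hδ1 : δ ≤ 1)
    {Ω : Type} [MeasurableSpace Ω] {μ : Measure Ω} [IsProbabilityMeasure μ] {a : ℕ → Ω → ℕ}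
    (H : MovedOn k q η δ M μ a) :
    ∀ᵐ ω ∂μ, ∀ᶠ n : ℕ in atTop, (∃ ρ : Fin t → ℕ, ∑ i, ρ i ^ k ≡ n [MOD q]) →
      ∃ x : Fin t → ℕ, (∀ i, 0 < x i) ∧ ∑ i, a (x i) ω = n :=
  coreC hq hk hη0 hη1 hκ0 hTh ht hδ0 hδ1 H.measurable H.indep H.fixed H.range H.spread

/-- all numbers of summands at once -/
theorem MovedOn.ae_all (hq : 1 ≤ q) (hk : 1 ≤ k) (hη0 : 0 < η)
    (hη1 : η < 1) (hκ0 : 0 < κ) (hTh : Thick q κ M) (hδ0 : 0 < δ) (hδ1 : δ ≤ 1)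
    {Ω : Type} [MeasurableSpace Ω] {μ : Measure Ω} [IsProbabilityMeasure μ] {a : ℕ → Ω → ℕ}
    (H : MovedOn k q η δ M μ a) :
    ∀ᵐ ω ∂μ, ∀ t : ℕ, (η / κ + Real.log (1 / η)) * k + 2 < t →
      ∀ᶠ n : ℕ in atTop, (∃ ρ : Fin t → ℕ, ∑ i, ρ i ^ k ≡ n [MOD q]) →
        ∃ x : Fin t → ℕ, (∀ i, 0 < x i) ∧ ∑ i, a (x i) ω = n := by
  rw [ae_all_iff]
  intro t
  by_cases ht : (η / κ + Real.log (1 / η)) * k + 2 < t
  · filter_upwards [H.ae hq hk hη0 hη1 hκ0 hTh ht hδ0 hδ1] with ω hω _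
    exact hω
  · exact ae_of_all _ fun ω h => absurd h ht

theorem MovedOn.ae_MS (hq : 1 ≤ q) (hk : 1 ≤ k) (hη0 : 0 < η)
    (hη1 : η < 1) (hs : 1 ≤ s) (hδ0 : 0 < δ) (hδ1 : δ ≤ 1)
    {Ω : Type} [MeasurableSpace Ω] {μ : Measure Ω} [IsProbabilityMeasure μ] {a : ℕ → Ω → ℕ}
    (H : MovedOn k q η δ (MS q s) μ a) :
    ∀ᵐ ω ∂μ, ∀ t : ℕ, (η * s + Real.log (1 / η)) * k + 2 < t →
      ∀ᶠ n : ℕ in atTop, (∃ ρ : Fin t → ℕ, ∑ i, ρ i ^ k ≡ n [MOD q]) →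
        ∃ x : Fin t → ℕ, (∀ i, 0 < x i) ∧ ∑ i, a (x i) ω = n := by
  rw [ae_all_iff]
  intro t
  by_cases ht : (η * s + Real.log (1 / η)) * k + 2 < t
  · obtain ⟨κ, hκ0, hκ1, hκ2⟩ := exists_kappa hk hη0 hs ht
    filter_upwards [H.ae hq hk hη0 hη1 hκ0 (MS_thick hq hs hκ1) hκ2 hδ0 hδ1] with ω hω _
    exact hω
  · exact ae_of_all _ fun ω h => absurd h ht

theorem exists_movedOn (k : ℕ) (η : ℝ) (hq : 1 ≤ q) (hδ1 : δ ≤ 1) (M : Set ℕ) :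
    ∃ (Ω : Type) (_ : MeasurableSpace Ω) (μ : Measure Ω) (_ : IsProbabilityMeasure μ)
      (a : ℕ → Ω → ℕ), MovedOn k q η δ M μ a := by
  obtain ⟨Ω, mΩ, μ, hμ, a, h1, h2, h3, h4, h5⟩ := exists_movedC q k (η := η) hq M
  refine ⟨Ω, mΩ, μ, hμ, a, h1, h2, h3, h4, fun x hx j hj => le_trans ?_ (h5 x hx j hj)⟩
  exact div_le_div_of_nonneg_right hδ1 (by positivity)

/-- **The deterministic corollary.** -/
theorem detOn (hq : 1 ≤ q) (hk : 1 ≤ k) (hη0 : 0 < η) (hη1 : η < 1) (hs : 1 ≤ s) :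
    ∃ b : ℕ → ℕ, (∀ x : ℕ, ∃ j : ℕ, (j : ℝ) ≤ ((x : ℝ) ^ k) ^ η ∧ b x = x ^ k + q * j) ∧
      (∀ X : ℕ, 1 ≤ X → (((range X).filter fun x => b x ≠ x ^ k).card : ℝ) ≤
        2 * q * (X : ℝ) ^ (1 / (s : ℝ))) ∧
      ∀ t : ℕ, (η * s + Real.log (1 / η)) * k + 2 < t →
        ∀ᶠ n : ℕ in atTop, (∃ ρ : Fin t → ℕ, ∑ i, ρ i ^ k ≡ n [MOD q]) →
          ∃ x : Fin t → ℕ, (∀ i, 0 < x i) ∧ ∑ i, b (x i) = n := by
  refine detC (P := fun b => ∀ t : ℕ, (η * s + Real.log (1 / η)) * k + 2 < t →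
        ∀ᶠ n : ℕ in atTop, (∃ ρ : Fin t → ℕ, ∑ i, ρ i ^ k ≡ n [MOD q]) →
          ∃ x : Fin t → ℕ, (∀ i, 0 < x i) ∧ ∑ i, b (x i) = n) hq hs ?_
  intro Ω _ μ _ a h1 h2 h3 h4 h5
  exact MovedOn.ae_MS hq hk hη0 hη1 hs one_pos le_rfl
    (⟨h1, h2, h3, h4, h5⟩ : MovedOn k q η 1 (MS q s) μ a)

end Pool.Agent.R500.WC
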